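import Pool.Agent.TamC.Pack

/-!
# The substitution `ρ ↦ (α + β ρ) / (γ + ε ρ)` on one axis of a packed polynomial
-/

namespace TamC

open Finset

/-- the coefficients of `(α + β Z)^a (γ + ε Z)^(b-1-a)` -/
noncomputable def Tc (b α β γ ε i a : ℕ) : ℕ :=
  ((Polynomial.C α + Polynomial.C β * Polynomial.X : Polynomial ℕ) ^ a *
    (Polynomial.C γ + Polynomial.C ε * Polynomial.X) ^ (b - 1 - a)).coeff i

lemma Tc_deg {b α β γ ε a : ℕ} (ha : a < b) :
    ((Polynomial.C α + Polynomial.C β * Polynomial.X : Polynomial ℕ) ^ a *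
    (Polynomial.C γ + Polynomial.C ε * Polynomial.X) ^ (b - 1 - a)).natDegree < b := by
  have h1 : ∀ x y : ℕ, (Polynomial.C x + Polynomial.C y * Polynomial.X : Polynomial ℕ).natDegree ≤ 1 := by
    intro x y
    rw [add_comm]
    exact Polynomial.natDegree_linear_le
  have h2 : ((Polynomial.C α + Polynomial.C β * Polynomial.X : Polynomial ℕ) ^ a).natDegree ≤ a * 1 :=
    Polynomial.natDegree_pow_le_of_le a (h1 α β)
  have h3 : ((Polynomial.C γ + Polynomial.C ε * Polynomial.X : Polynomial ℕ) ^ (b - 1 - a)).natDegree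
      ≤ (b - 1 - a) * 1 := Polynomial.natDegree_pow_le_of_le _ (h1 γ ε)
  have h4 := Polynomial.natDegree_mul_le_of_le h2 h3
  omega

lemma Tc_sum {A : Type*} [CommSemiring A] {b α β γ ε a : ℕ} (ha : a < b) (z : A) :
    ((α : A) + β * z) ^ a * ((γ : A) + ε * z) ^ (b - 1 - a) =
      ∑ i ∈ range b, (Tc b α β γ ε i a : A) * z ^ i := by
  have h := Polynomial.eval₂_eq_sum_range' (Nat.castRingHom A) (Tc_deg (α := α) (β := β) (γ := γ)
    (ε := ε) ha) z
  rw [Polynomial.eval₂_mul, Polynomial.eval₂_pow, Polynomial.eval₂_pow] at h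
  simpa [Tc] using h

lemma dg_dg {K s P : ℕ} (q l : ℕ) (hl : l < s) :
    dg K (dg (K * s) P q) l = dg K P (q * s + l) := by
  have key : ∀ x : ℕ, x % 2 ^ (K * s) / 2 ^ (K * l) % 2 ^ K = x / 2 ^ (K * l) % 2 ^ K := by
    intro x
    have e : 2 ^ (K * s) = 2 ^ (K * l) * 2 ^ (K * (s - l)) := by
      rw [← pow_add, ← Nat.mul_add]
      congr 2
      omega
    rw [e, Nat.mod_mul_right_div_self, Nat.mod_mod_of_dvd]
    apply Nat.pow_dvd_pow
    exact Nat.le_mul_of_pos_right _ (by omega)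
  unfold dg
  rw [key, Nat.div_div_eq_div_mul, ← pow_add]
  congr 3
  ring

lemma dg_block {K s b H P : ℕ} (h : ℕ) (a : ℕ) (_hq : h * b + a < H * b) :
    dg (K * s) P (h * b + a) = ∑ l ∈ range s, dg K P ((h * b + a) * s + l) * 2 ^ (K * l) := by
  have h1 : dg (K * s) P (h * b + a) < 2 ^ (K * s) := dg_lt _ _ _
  rw [expand K s _ h1]
  apply Finset.sum_congr rfl
  intro l hl
  rw [Finset.mem_range] at hl
  congr 1
  have key : ∀ x : ℕ, x % 2 ^ (K * s) / 2 ^ (K * l) % 2 ^ K = x / 2 ^ (K * l) % 2 ^ K := by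
    intro x
    have e : 2 ^ (K * s) = 2 ^ (K * l) * 2 ^ (K * (s - l)) := by
      rw [← pow_add, ← Nat.mul_add]
      congr 2
      omega
    rw [e, Nat.mod_mul_right_div_self, Nat.mod_mod_of_dvd]
    apply Nat.pow_dvd_pow
    exact Nat.le_mul_of_pos_right _ (by omega)
  unfold dg
  rw [key, Nat.div_div_eq_div_mul, ← pow_add]
  congr 3
  ring

/-- the coefficients after the substitution -/
noncomputable def cc (K s b P α β γ ε m : ℕ) : ℕ :=
  ∑ a ∈ range b, Tc b α β γ ε (m / s % b) a * dg K P ((m / s / b * b + a) * s + m % s)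

lemma cc_idx {K s b P α β γ ε h i l : ℕ} (hi : i < b) (hl : l < s) :
    cc K s b P α β γ ε ((h * b + i) * s + l) =
      ∑ a ∈ range b, Tc b α β γ ε i a * dg K P ((h * b + a) * s + l) := by
  have hs : 0 < s := by omega
  have hb : 0 < b := by omega
  have e1 : ((h * b + i) * s + l) / s = h * b + i := by
    rw [mul_comm, Nat.mul_add_div hs, Nat.div_eq_of_lt hl, add_zero]
  have e2 : ((h * b + i) * s + l) % s = l := by
    rw [mul_comm, Nat.mul_add_mod, Nat.mod_eq_of_lt hl]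
  have e3 : (h * b + i) / b = h := by
    rw [mul_comm, Nat.mul_add_div hb, Nat.div_eq_of_lt hi, add_zero]
  have e4 : (h * b + i) % b = i := by
    rw [mul_comm, Nat.mul_add_mod, Nat.mod_eq_of_lt hi]
  unfold cc
  rw [e1, e2, e3, e4]

/-- the sum form of the operation -/
def opS (K s b H P α β γ ε : ℕ) : ℕ :=
  ∑ a ∈ range b, sl K s b H P a * ((α + β * 2 ^ (K * s)) ^ a * (γ + ε * 2 ^ (K * s)) ^ (b - 1 - a))

lemma opS_eq {K s b : ℕ} (hpos : 0 < K * s * b) (H P α β γ ε : ℕ) :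
    opS K s b H P α β γ ε = ∑ m ∈ range (H * b * s), cc K s b P α β γ ε m * 2 ^ (K * m) := by
  have hs : 0 < s := by
    rcases Nat.eq_zero_or_pos s with h | h
    · subst h; simp at hpos
    · exact h
  rw [sum_range_mul', sum_range_mul']
  unfold opS
  have step : ∀ a ∈ range b, sl K s b H P a * ((α + β * 2 ^ (K * s)) ^ a *
      (γ + ε * 2 ^ (K * s)) ^ (b - 1 - a)) =
      ∑ h ∈ range H, ∑ i ∈ range b, ∑ l ∈ range s,
        Tc b α β γ ε i a * dg K P ((h * b + a) * s + l) * 2 ^ (K * ((h * b + i) * s + l)) := by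
    intro a ha
    rw [Finset.mem_range] at ha
    have h1 := Tc_sum (A := ℕ) (α := α) (β := β) (γ := γ) (ε := ε) ha (2 ^ (K * s))
    simp only [Nat.cast_id] at h1
    rw [h1, sl_eq hpos, Finset.sum_mul]
    apply Finset.sum_congr rfl
    intro h hh
    rw [Finset.mem_range] at hh
    rw [Finset.mul_sum]
    apply Finset.sum_congr rfl
    intro i _
    have hq : h * b + a < H * b := by
      have : (h + 1) * b ≤ H * b := Nat.mul_le_mul_right _ hh
      rw [Nat.succ_mul] at this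
      omega
    rw [dg_block (H := H) h a hq, Finset.sum_mul, Finset.sum_mul]
    apply Finset.sum_congr rfl
    intro l _
    rw [← pow_mul]
    have e : K * ((h * b + i) * s + l) = K * l + K * s * b * h + K * s * i := by ring
    rw [e, pow_add, pow_add]
    ring
  rw [Finset.sum_congr rfl step, Finset.sum_comm]
  apply Finset.sum_congr rfl
  intro h _
  rw [Finset.sum_comm]
  apply Finset.sum_congr rfl
  intro i hi
  rw [Finset.mem_range] at hi
  rw [Finset.sum_comm]
  apply Finset.sum_congr rfl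
  intro l hl
  rw [Finset.mem_range] at hl
  rw [cc_idx hi hl, Finset.sum_mul]

lemma Tc_le {b α β γ ε i a : ℕ} (ha : a < b) (hi : i < b) :
    Tc b α β γ ε i a ≤ (α + β) ^ a * (γ + ε) ^ (b - 1 - a) := by
  have h1 := Tc_sum (A := ℕ) (α := α) (β := β) (γ := γ) (ε := ε) ha 1
  simp only [Nat.cast_id, mul_one, one_pow] at h1
  rw [h1]
  exact Finset.single_le_sum (f := fun i => Tc b α β γ ε i a) (fun _ _ => Nat.zero_le _)
    (Finset.mem_range.mpr hi)

/-- the growth factor -/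
def gr (b α β γ ε : ℕ) : ℕ := ∑ a ∈ range b, (α + β) ^ a * (γ + ε) ^ (b - 1 - a)

lemma cc_lt {K s b P α β γ ε Mx : ℕ} (hb : 0 < b)
    (hM : ∀ m, dg K P m ≤ Mx) (hg : gr b α β γ ε * Mx < 2 ^ K) (m : ℕ) :
    cc K s b P α β γ ε m < 2 ^ K := by
  refine lt_of_le_of_lt ?_ hg
  unfold cc gr
  rw [Finset.sum_mul]
  apply Finset.sum_le_sum
  intro a ha
  rw [Finset.mem_range] at ha
  exact Nat.mul_le_mul (Tc_le ha (Nat.mod_lt _ hb)) (hM _)

/-- the packed substitution: digits of the result -/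
lemma dg_opS {K s b H P α β γ ε Mx : ℕ} (hpos : 0 < K * s * b)
    (hM : ∀ m, dg K P m ≤ Mx) (hg : gr b α β γ ε * Mx < 2 ^ K) {h i l : ℕ}
    (hh : h < H) (hi : i < b) (hl : l < s) :
    dg K (opS K s b H P α β γ ε) ((h * b + i) * s + l) =
      ∑ a ∈ range b, Tc b α β γ ε i a * dg K P ((h * b + a) * s + l) := by
  have hb : 0 < b := by omega
  rw [opS_eq hpos, dg_sum K _ _ (fun m _ => cc_lt hb hM hg m), cc_idx hi hl]
  have h1 : h * b + i + 1 ≤ H * b := by
    have : (h + 1) * b ≤ H * b := Nat.mul_le_mul_right _ hh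
    rw [Nat.succ_mul] at this
    omega
  have h2 : (h * b + i + 1) * s ≤ H * b * s := Nat.mul_le_mul_right _ h1
  rw [Nat.succ_mul] at h2
  omega

lemma opS_lt {K s b H P α β γ ε Mx : ℕ} (hpos : 0 < K * s * b)
    (hM : ∀ m, dg K P m ≤ Mx) (hg : gr b α β γ ε * Mx < 2 ^ K) :
    opS K s b H P α β γ ε < 2 ^ (K * (H * b * s)) := by
  have hb : 0 < b := by
    rcases Nat.eq_zero_or_pos b with h | h
    · subst h; simp at hpos
    · exact h
  rw [opS_eq hpos]
  exact sum_lt K _ _ (fun m _ => cc_lt hb hM hg m)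

/-- evaluation along an axis -/
lemma axis_eval {K s b H P α β γ ε Mx : ℕ} (hpos : 0 < K * s * b)
    (hM : ∀ m, dg K P m ≤ Mx) (hg : gr b α β γ ε * Mx < 2 ^ K) {h l : ℕ}
    (hh : h < H) (hl : l < s) (x : ℝ) :
    ∑ i ∈ range b, (dg K (opS K s b H P α β γ ε) ((h * b + i) * s + l) : ℝ) * x ^ i =
      ∑ a ∈ range b, (dg K P ((h * b + a) * s + l) : ℝ) *
        (((α : ℝ) + β * x) ^ a * ((γ : ℝ) + ε * x) ^ (b - 1 - a)) := by
  have h1 : ∀ i ∈ range b, (dg K (opS K s b H P α β γ ε) ((h * b + i) * s + l) : ℝ) * x ^ i =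
      ∑ a ∈ range b, (dg K P ((h * b + a) * s + l) : ℝ) * ((Tc b α β γ ε i a : ℝ) * x ^ i) := by
    intro i hi
    rw [Finset.mem_range] at hi
    rw [dg_opS hpos hM hg hh hi hl]
    push_cast
    rw [Finset.sum_mul]
    apply Finset.sum_congr rfl
    intro a _
    ring
  rw [Finset.sum_congr rfl h1, Finset.sum_comm]
  apply Finset.sum_congr rfl
  intro a ha
  rw [Finset.mem_range] at ha
  rw [Tc_sum ha, Finset.mul_sum]

end TamC
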