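import Pool.Agent.TamC.Axis

/-!
# Branch and bound for packed polynomials in three variables
-/

namespace TamC

open Finset

/-- the polynomial in three variables packed in `P` -/
noncomputable def F (K b1 b2 b3 P : ℕ) (x y z : ℝ) : ℝ :=
  ∑ i ∈ range b1, ∑ j ∈ range b2, ∑ k ∈ range b3,
    (dg K P ((i * b2 + j) * b3 + k) : ℝ) * (x ^ i * y ^ j * z ^ k)

lemma hom_div {a b : ℕ} (ha : a < b) (p : ℝ) {q : ℝ} (hq : q ≠ 0) :
    p ^ a * q ^ (b - 1 - a) = q ^ (b - 1) * (p / q) ^ a := by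
  have e : q ^ (b - 1) = q ^ (b - 1 - a) * q ^ a := by
    rw [← pow_add]; congr 1; omega
  rw [e, div_pow]
  field_simp

lemma F_op1 {K b1 b2 b3 P α β γ ε Mx : ℕ} (hK : 0 < K) (h1 : 0 < b1) (h2 : 0 < b2) (h3 : 0 < b3)
    (hM : ∀ m, dg K P m ≤ Mx) (hg : gr b1 α β γ ε * Mx < 2 ^ K) (x y z : ℝ)
    (hq : (γ : ℝ) + ε * x ≠ 0) :
    F K b1 b2 b3 (opS K (b2 * b3) b1 1 P α β γ ε) x y z =
      ((γ : ℝ) + ε * x) ^ (b1 - 1) * F K b1 b2 b3 P (((α : ℝ) + β * x) / (γ + ε * x)) y z := by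
  have hpos : 0 < K * (b2 * b3) * b1 := by positivity
  unfold F
  have key : ∀ j ∈ range b2, ∀ k ∈ range b3, ∑ i ∈ range b1,
      (dg K (opS K (b2 * b3) b1 1 P α β γ ε) ((i * b2 + j) * b3 + k) : ℝ) *
        (x ^ i * y ^ j * z ^ k) = ((γ : ℝ) + ε * x) ^ (b1 - 1) * ∑ i ∈ range b1,
      (dg K P ((i * b2 + j) * b3 + k) : ℝ) *
        ((((α : ℝ) + β * x) / (γ + ε * x)) ^ i * y ^ j * z ^ k) := by
    intro j hj k hk
    rw [Finset.mem_range] at hj hk
    have hl : j * b3 + k < b2 * b3 := by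
      have : (j + 1) * b3 ≤ b2 * b3 := Nat.mul_le_mul_right _ hj
      rw [Nat.succ_mul] at this
      omega
    have h := axis_eval (H := 1) (α := α) (β := β) (γ := γ) (ε := ε) hpos hM hg
      (h := 0) (by norm_num) hl x
    have e : ∀ i, (0 * b1 + i) * (b2 * b3) + (j * b3 + k) = (i * b2 + j) * b3 + k := by
      intro i; ring
    simp only [e] at h
    calc _ = (∑ i ∈ range b1, (dg K (opS K (b2 * b3) b1 1 P α β γ ε)
          ((i * b2 + j) * b3 + k) : ℝ) * x ^ i) * (y ^ j * z ^ k) := by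
          rw [Finset.sum_mul]; apply Finset.sum_congr rfl; intro i _; ring
      _ = _ := by
          rw [h, Finset.sum_mul, Finset.mul_sum]
          apply Finset.sum_congr rfl
          intro i hi
          rw [Finset.mem_range] at hi
          rw [hom_div hi _ hq]
          ring
  calc _ = ∑ j ∈ range b2, ∑ k ∈ range b3, ∑ i ∈ range b1,
      (dg K (opS K (b2 * b3) b1 1 P α β γ ε) ((i * b2 + j) * b3 + k) : ℝ) *
        (x ^ i * y ^ j * z ^ k) := by
        rw [Finset.sum_comm]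
        apply Finset.sum_congr rfl
        intro j _
        rw [Finset.sum_comm]
    _ = ∑ j ∈ range b2, ∑ k ∈ range b3, ((γ : ℝ) + ε * x) ^ (b1 - 1) * ∑ i ∈ range b1,
      (dg K P ((i * b2 + j) * b3 + k) : ℝ) *
        ((((α : ℝ) + β * x) / (γ + ε * x)) ^ i * y ^ j * z ^ k) := by
        apply Finset.sum_congr rfl
        intro j hj
        apply Finset.sum_congr rfl
        intro k hk
        exact key j hj k hk
    _ = _ := by
        simp only [← Finset.mul_sum]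
        congr 1
        conv_rhs => rw [Finset.sum_comm]
        apply Finset.sum_congr rfl
        intro j _
        rw [Finset.sum_comm]

lemma F_op2 {K b1 b2 b3 P α β γ ε Mx : ℕ} (hK : 0 < K) (h2 : 0 < b2) (h3 : 0 < b3)
    (hM : ∀ m, dg K P m ≤ Mx) (hg : gr b2 α β γ ε * Mx < 2 ^ K) (x y z : ℝ)
    (hq : (γ : ℝ) + ε * y ≠ 0) :
    F K b1 b2 b3 (opS K b3 b2 b1 P α β γ ε) x y z =
      ((γ : ℝ) + ε * y) ^ (b2 - 1) * F K b1 b2 b3 P x (((α : ℝ) + β * y) / (γ + ε * y)) z := by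
  have hpos : 0 < K * b3 * b2 := by positivity
  unfold F
  rw [Finset.mul_sum]
  apply Finset.sum_congr rfl
  intro i hi
  rw [Finset.mem_range] at hi
  rw [Finset.sum_comm, Finset.mul_sum]
  conv_rhs => 
    simp only [Finset.mul_sum]
  conv_rhs => rw [Finset.sum_comm]
  apply Finset.sum_congr rfl
  intro k hk
  rw [Finset.mem_range] at hk
  have h := axis_eval (H := b1) (α := α) (β := β) (γ := γ) (ε := ε) hpos hM hg hi hk y
  calc _ = (∑ j ∈ range b2, (dg K (opS K b3 b2 b1 P α β γ ε)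
        ((i * b2 + j) * b3 + k) : ℝ) * y ^ j) * (x ^ i * z ^ k) := by
        rw [Finset.sum_mul]; apply Finset.sum_congr rfl; intro j _; ring
    _ = _ := by
        rw [h, Finset.sum_mul]
        apply Finset.sum_congr rfl
        intro j hj
        rw [Finset.mem_range] at hj
        rw [hom_div hj _ hq]
        ring

lemma F_op3 {K b1 b2 b3 P α β γ ε Mx : ℕ} (hK : 0 < K) (h3 : 0 < b3)
    (hM : ∀ m, dg K P m ≤ Mx) (hg : gr b3 α β γ ε * Mx < 2 ^ K) (x y z : ℝ)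
    (hq : (γ : ℝ) + ε * z ≠ 0) :
    F K b1 b2 b3 (opS K 1 b3 (b1 * b2) P α β γ ε) x y z =
      ((γ : ℝ) + ε * z) ^ (b3 - 1) * F K b1 b2 b3 P x y (((α : ℝ) + β * z) / (γ + ε * z)) := by
  have hpos : 0 < K * 1 * b3 := by positivity
  unfold F
  rw [Finset.mul_sum]
  apply Finset.sum_congr rfl
  intro i hi
  rw [Finset.mem_range] at hi
  rw [Finset.mul_sum]
  apply Finset.sum_congr rfl
  intro j hj
  rw [Finset.mem_range] at hj
  have hh : i * b2 + j < b1 * b2 := by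
    have : (i + 1) * b2 ≤ b1 * b2 := Nat.mul_le_mul_right _ hi
    rw [Nat.succ_mul] at this
    omega
  have h := axis_eval (H := b1 * b2) (s := 1) (α := α) (β := β) (γ := γ) (ε := ε) hpos hM hg hh
    (l := 0) (by norm_num) z
  simp only [mul_one, Nat.add_zero] at h
  calc _ = (∑ k ∈ range b3, (dg K (opS K 1 b3 (b1 * b2) P α β γ ε)
        ((i * b2 + j) * b3 + k) : ℝ) * z ^ k) * (x ^ i * y ^ j) := by
        rw [Finset.sum_mul]; apply Finset.sum_congr rfl; intro j _; ring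
    _ = _ := by
        rw [h, Finset.sum_mul, Finset.mul_sum]
        apply Finset.sum_congr rfl
        intro k hk
        rw [Finset.mem_range] at hk
        rw [hom_div hk _ hq]
        ring

/-! ### leaves -/

/-- mask of the `g` top bits of every digit -/
def hmask (K g L : ℕ) : ℕ := (2 ^ K - 2 ^ (K - g)) * ((2 ^ (K * L) - 1) / (2 ^ K - 1))

lemma land_digits (K c : ℕ) (hc : c < 2 ^ K) : ∀ (L P : ℕ),
    P &&& (∑ m ∈ range L, c * 2 ^ (K * m)) = ∑ m ∈ range L, (dg K P m &&& c) * 2 ^ (K * m) := by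
  intro L
  induction L with
  | zero => intro P; simp
  | succ L ih =>
    intro P
    rw [sum_pack K L (fun _ => c), sum_pack K L (fun m => dg K P m &&& c)]
    have h2 : P % 2 ^ K < 2 ^ K := Nat.mod_lt _ (by positivity)
    conv_lhs => rw [← Nat.mod_add_div P (2 ^ K)]
    rw [land_split _ _ h2 hc, ih]
    congr 1
    · unfold dg; simp
    · congr 1
      apply Finset.sum_congr rfl
      intro m _
      congr 2
      unfold dg
      rw [Nat.mul_succ, pow_add, mul_comm (2 ^ (K * m)) (2 ^ K), ← Nat.div_div_eq_div_mul]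

lemma hmask_spec {K g L P : ℕ} (hK : 0 < K) (hg : g ≤ K) (h0 : P &&& hmask K g L = 0)
    {m : ℕ} (hm : m < L) : dg K P m < 2 ^ (K - g) := by
  have h2 : 2 ≤ 2 ^ K := by
    calc 2 = 2 ^ 1 := by norm_num
      _ ≤ 2 ^ K := Nat.pow_le_pow_right (by norm_num) hK
  have hpos : 0 < 2 ^ (K - g) := by positivity
  have hle : 2 ^ (K - g) ≤ 2 ^ K := Nat.pow_le_pow_right (by norm_num) (by omega)
  have e : hmask K g L = ∑ m ∈ range L, (2 ^ K - 2 ^ (K - g)) * 2 ^ (K * m) := by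
    unfold hmask
    have h3 := Nat.geomSum_eq h2 L
    rw [← pow_mul] at h3
    rw [← h3, Finset.mul_sum]
    apply Finset.sum_congr rfl
    intro i _
    rw [← pow_mul]
  rw [e, land_digits K _ (by omega) L P, Finset.sum_eq_zero_iff] at h0
  have h4 := h0 m (Finset.mem_range.mpr hm)
  have h5 : dg K P m &&& (2 ^ K - 2 ^ (K - g)) = 0 := by
    rcases Nat.mul_eq_zero.mp h4 with h | h
    · exact h
    · have : 0 < 2 ^ (K * m) := by positivity
      omega
  have h6 : 2 ^ K - 2 ^ (K - g) = 0 + 2 ^ (K - g) * (2 ^ g - 1) := by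
    rw [Nat.mul_sub, ← pow_add, Nat.sub_add_cancel hg, mul_one, zero_add]
  have h7 : dg K P m % 2 ^ (K - g) < 2 ^ (K - g) := Nat.mod_lt _ hpos
  rw [← Nat.mod_add_div (dg K P m) (2 ^ (K - g)), h6, land_split _ _ h7 hpos,
    Nat.and_two_pow_sub_one_eq_mod] at h5
  have h8 : dg K P m / 2 ^ (K - g) < 2 ^ g := by
    rw [Nat.div_lt_iff_lt_mul hpos, ← pow_add, Nat.add_comm, Nat.sub_add_cancel hg]
    exact dg_lt _ _ _
  rw [Nat.mod_eq_of_lt h8] at h5
  have h9 : 2 ^ (K - g) * (dg K P m / 2 ^ (K - g)) = 0 := by omega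
  have h10 : dg K P m / 2 ^ (K - g) = 0 := by
    rcases Nat.mul_eq_zero.mp h9 with h | h
    · omega
    · exact h
  rw [Nat.div_eq_zero_iff] at h10
  rcases h10 with h | h
  · omega
  · exact h

lemma dg_of_lt {K L P m : ℕ} (hP : P < 2 ^ (K * L)) (hm : L ≤ m) : dg K P m = 0 := by
  unfold dg
  rw [Nat.div_eq_of_lt, Nat.zero_mod]
  exact lt_of_lt_of_le hP (Nat.pow_le_pow_right (by norm_num) (Nat.mul_le_mul_left _ hm))

/-- packed `(1+x)^n1 (1+y)^n2 (1+z)^n3` -/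
def EE (K n1 n2 n3 : ℕ) : ℕ :=
  (2 ^ (K * ((n2 + 1) * (n3 + 1))) + 1) ^ n1 * (2 ^ (K * (n3 + 1)) + 1) ^ n2 * (2 ^ K + 1) ^ n3

lemma EE_eq (K n1 n2 n3 : ℕ) : EE K n1 n2 n3 = ∑ m ∈ range ((n1 + 1) * (n2 + 1) * (n3 + 1)),
    (n1.choose (m / (n3 + 1) / (n2 + 1)) * n2.choose (m / (n3 + 1) % (n2 + 1)) *
      n3.choose (m % (n3 + 1))) * 2 ^ (K * m) := by
  rw [sum_range_mul', sum_range_mul']
  unfold EE
  rw [add_pow, add_pow, add_pow]
  simp only [one_pow, mul_one]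
  rw [Finset.sum_mul_sum, Finset.sum_mul]
  apply Finset.sum_congr rfl
  intro i _
  rw [Finset.sum_mul_sum]
  apply Finset.sum_congr rfl
  intro j hj
  rw [Finset.mem_range] at hj
  apply Finset.sum_congr rfl
  intro k hk
  rw [Finset.mem_range] at hk
  have e1 : ((i * (n2 + 1) + j) * (n3 + 1) + k) / (n3 + 1) = i * (n2 + 1) + j := by
    rw [mul_comm, Nat.mul_add_div (by omega), Nat.div_eq_of_lt hk, add_zero]
  have e2 : ((i * (n2 + 1) + j) * (n3 + 1) + k) % (n3 + 1) = k := by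
    rw [mul_comm, Nat.mul_add_mod, Nat.mod_eq_of_lt hk]
  have e3 : (i * (n2 + 1) + j) / (n2 + 1) = i := by
    rw [mul_comm, Nat.mul_add_div (by omega), Nat.div_eq_of_lt hj, add_zero]
  have e4 : (i * (n2 + 1) + j) % (n2 + 1) = j := by
    rw [mul_comm, Nat.mul_add_mod, Nat.mod_eq_of_lt hj]
  rw [e1, e2, e3, e4, ← pow_mul, ← pow_mul, ← pow_mul]
  have e5 : K * ((i * (n2 + 1) + j) * (n3 + 1) + k) =
      K * ((n2 + 1) * (n3 + 1)) * i + K * (n3 + 1) * j + K * k := by ring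
  rw [e5, pow_add, pow_add]
  simp only [Nat.cast_id]
  ring

/-- the leaf test -/
def leaf (K n1 n2 n3 P e : ℕ) : Bool :=
  Nat.ble (e * EE K n1 n2 n3) P &&
  (Nat.beq ((P - e * EE K n1 n2 n3) &&& hmask K 1 ((n1 + 1) * (n2 + 1) * (n3 + 1))) 0 &&
  Nat.blt (e * 2 ^ (n1 + n2 + n3)) (2 ^ (K - 1)))

lemma leaf_dg {K n1 n2 n3 P e : ℕ} (hK : 0 < K)
    (hP : P < 2 ^ (K * ((n1 + 1) * (n2 + 1) * (n3 + 1))))
    (h : leaf K n1 n2 n3 P e = true) {m : ℕ} (hm : m < (n1 + 1) * (n2 + 1) * (n3 + 1)) :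
    e * (n1.choose (m / (n3 + 1) / (n2 + 1)) * n2.choose (m / (n3 + 1) % (n2 + 1)) *
      n3.choose (m % (n3 + 1))) ≤ dg K P m := by
  unfold leaf at h
  rw [Bool.and_eq_true, Bool.and_eq_true, Nat.ble_eq, Nat.beq_eq, Nat.blt_eq] at h
  obtain ⟨h1, h2, h3⟩ := h
  set L := (n1 + 1) * (n2 + 1) * (n3 + 1) with hL
  set cE : ℕ → ℕ := fun m => n1.choose (m / (n3 + 1) / (n2 + 1)) *
    n2.choose (m / (n3 + 1) % (n2 + 1)) * n3.choose (m % (n3 + 1)) with hcE
  set W := P - e * EE K n1 n2 n3 with hW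
  have hWlt : W < 2 ^ (K * L) := lt_of_le_of_lt (Nat.sub_le _ _) hP
  have hsplit : P = ∑ m ∈ range L, (e * cE m + dg K W m) * 2 ^ (K * m) := by
    have h4 : P = e * EE K n1 n2 n3 + W := by omega
    rw [h4, EE_eq]
    conv_lhs => rw [expand K L W hWlt]
    rw [Finset.mul_sum, ← Finset.sum_add_distrib]
    apply Finset.sum_congr rfl
    intro m _
    simp only [hcE]
    ring
  have hb : ∀ m < L, e * cE m + dg K W m < 2 ^ K := by
    intro m hm
    have h5 := hmask_spec hK (by omega : 1 ≤ K) h2 hm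
    have h6 : cE m ≤ 2 ^ (n1 + n2 + n3) := by
      simp only [hcE]
      rw [pow_add, pow_add]
      exact Nat.mul_le_mul (Nat.mul_le_mul (Nat.choose_le_two_pow _ _) (Nat.choose_le_two_pow _ _))
        (Nat.choose_le_two_pow _ _)
    have h7 : e * cE m ≤ e * 2 ^ (n1 + n2 + n3) := Nat.mul_le_mul_left _ h6
    have h8 : 2 ^ K = 2 ^ (K - 1) + 2 ^ (K - 1) := by
      rw [← two_mul, ← pow_succ']
      congr 1
      omega
    omega
  have h9 := dg_sum K L _ hb m hm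
  rw [← hsplit] at h9
  rw [h9]
  exact Nat.le_add_right _ _

lemma leaf_sound {K n1 n2 n3 P e : ℕ} (hK : 0 < K)
    (hP : P < 2 ^ (K * ((n1 + 1) * (n2 + 1) * (n3 + 1))))
    (h : leaf K n1 n2 n3 P e = true) {x y z : ℝ} (hx : 0 ≤ x) (hy : 0 ≤ y) (hz : 0 ≤ z) :
    (e : ℝ) * ((1 + x) ^ n1 * (1 + y) ^ n2 * (1 + z) ^ n3) ≤
      F K (n1 + 1) (n2 + 1) (n3 + 1) P x y z := by
  unfold F
  rw [add_comm 1 x, add_comm 1 y, add_comm 1 z, add_pow, add_pow, add_pow]
  simp only [one_pow, mul_one]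
  rw [Finset.sum_mul_sum, Finset.sum_mul, Finset.mul_sum]
  apply Finset.sum_le_sum
  intro i hi
  rw [Finset.sum_mul_sum, Finset.mul_sum]
  apply Finset.sum_le_sum
  intro j hj
  rw [Finset.mul_sum]
  apply Finset.sum_le_sum
  intro k hk
  rw [Finset.mem_range] at hi hj hk
  have e1 : ((i * (n2 + 1) + j) * (n3 + 1) + k) / (n3 + 1) = i * (n2 + 1) + j := by
    rw [mul_comm, Nat.mul_add_div (by omega), Nat.div_eq_of_lt hk, add_zero]
  have e2 : ((i * (n2 + 1) + j) * (n3 + 1) + k) % (n3 + 1) = k := by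
    rw [mul_comm, Nat.mul_add_mod, Nat.mod_eq_of_lt hk]
  have e3 : (i * (n2 + 1) + j) / (n2 + 1) = i := by
    rw [mul_comm, Nat.mul_add_div (by omega), Nat.div_eq_of_lt hj, add_zero]
  have e4 : (i * (n2 + 1) + j) % (n2 + 1) = j := by
    rw [mul_comm, Nat.mul_add_mod, Nat.mod_eq_of_lt hj]
  have hm : (i * (n2 + 1) + j) * (n3 + 1) + k < (n1 + 1) * (n2 + 1) * (n3 + 1) := by
    have h1 : i * (n2 + 1) + j + 1 ≤ (n1 + 1) * (n2 + 1) := by
      have : (i + 1) * (n2 + 1) ≤ (n1 + 1) * (n2 + 1) := Nat.mul_le_mul_right _ hi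
      rw [Nat.succ_mul] at this
      omega
    have h2 : (i * (n2 + 1) + j + 1) * (n3 + 1) ≤ (n1 + 1) * (n2 + 1) * (n3 + 1) :=
      Nat.mul_le_mul_right _ h1
    rw [Nat.succ_mul (i * (n2 + 1) + j)] at h2
    omega
  have h1 := leaf_dg hK hP h hm
  rw [e1, e2, e3, e4] at h1
  have h2 : ((e * (n1.choose i * n2.choose j * n3.choose k) : ℕ) : ℝ) ≤
      (dg K P ((i * (n2 + 1) + j) * (n3 + 1) + k) : ℝ) := by exact_mod_cast h1
  push_cast at h2
  have h3 : 0 ≤ x ^ i * y ^ j * z ^ k := by positivity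
  calc _ = (e : ℝ) * ((n1.choose i : ℝ) * (n2.choose j) * (n3.choose k)) *
        (x ^ i * y ^ j * z ^ k) := by ring
    _ ≤ _ := mul_le_mul_of_nonneg_right h2 h3

/-! ### rescaling -/

/-- mask of the low `K - n` bits of every digit -/
def lmask (K n L : ℕ) : ℕ := (2 ^ (K - n) - 1) * ((2 ^ (K * L) - 1) / (2 ^ K - 1))

/-- all digits divided by `2^n` -/
def nrm (K n L P : ℕ) : ℕ := (P >>> n) &&& lmask K n L

lemma nrm_eq {K n : ℕ} (hK : 0 < K) (hn : n ≤ K) (L P : ℕ) :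
    nrm K n L P = ∑ m ∈ range L, (dg K P m / 2 ^ n) * 2 ^ (K * m) := by
  have h2 : 2 ≤ 2 ^ K := by
    calc 2 = 2 ^ 1 := by norm_num
      _ ≤ 2 ^ K := Nat.pow_le_pow_right (by norm_num) hK
  have hpos : 0 < 2 ^ (K - n) := by positivity
  have hle : 2 ^ (K - n) ≤ 2 ^ K := Nat.pow_le_pow_right (by norm_num) (by omega)
  have e : lmask K n L = ∑ m ∈ range L, (2 ^ (K - n) - 1) * 2 ^ (K * m) := by
    unfold lmask
    have h3 := Nat.geomSum_eq h2 L
    rw [← pow_mul] at h3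
    rw [← h3, Finset.mul_sum]
    apply Finset.sum_congr rfl
    intro i _
    rw [← pow_mul]
  unfold nrm
  rw [e, land_digits K _ (by omega) L]
  apply Finset.sum_congr rfl
  intro m _
  congr 1
  rw [Nat.and_two_pow_sub_one_eq_mod]
  unfold dg
  rw [Nat.shiftRight_eq_div_pow, Nat.div_div_eq_div_mul, mul_comm (2 ^ n), ← Nat.div_div_eq_div_mul,
    Nat.mod_mod_of_dvd _ (Nat.pow_dvd_pow _ (by omega : K - n ≤ K))]
  have e2 : 2 ^ K = 2 ^ n * 2 ^ (K - n) := by rw [← pow_add]; congr 1; omega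
  rw [e2, Nat.mod_mul_right_div_self]

lemma dg_nrm {K n L P m : ℕ} (hK : 0 < K) (hn : n ≤ K) (hm : m < L) :
    dg K (nrm K n L P) m = dg K P m / 2 ^ n := by
  rw [nrm_eq hK hn]
  exact dg_sum K L _ (fun m _ => lt_of_le_of_lt (Nat.div_le_self _ _) (dg_lt _ _ _)) m hm

lemma nrm_lt {K n L P : ℕ} (hK : 0 < K) (hn : n ≤ K) : nrm K n L P < 2 ^ (K * L) := by
  rw [nrm_eq hK hn]
  exact sum_lt K L _ (fun m _ => lt_of_le_of_lt (Nat.div_le_self _ _) (dg_lt _ _ _))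

/-- comparison of two packed polynomials, digit by digit -/
lemma F_le {K K' b1 b2 b3 P Q c : ℕ}
    (h : ∀ m < b1 * b2 * b3, c * dg K' Q m ≤ dg K P m) {x y z : ℝ} (hx : 0 ≤ x) (hy : 0 ≤ y)
    (hz : 0 ≤ z) : (c : ℝ) * F K' b1 b2 b3 Q x y z ≤ F K b1 b2 b3 P x y z := by
  unfold F
  rw [Finset.mul_sum]
  apply Finset.sum_le_sum
  intro i hi
  rw [Finset.mul_sum]
  apply Finset.sum_le_sum
  intro j hj
  rw [Finset.mul_sum]
  apply Finset.sum_le_sum
  intro k hk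
  rw [Finset.mem_range] at hi hj hk
  have hm : (i * b2 + j) * b3 + k < b1 * b2 * b3 := by
    have h1 : i * b2 + j + 1 ≤ b1 * b2 := by
      have : (i + 1) * b2 ≤ b1 * b2 := Nat.mul_le_mul_right _ hi
      rw [Nat.succ_mul] at this
      omega
    have h2 : (i * b2 + j + 1) * b3 ≤ b1 * b2 * b3 := Nat.mul_le_mul_right _ h1
    rw [Nat.succ_mul (i * b2 + j)] at h2
    omega
  have h1 : ((c * dg K' Q ((i * b2 + j) * b3 + k) : ℕ) : ℝ) ≤
      (dg K P ((i * b2 + j) * b3 + k) : ℝ) := by exact_mod_cast h _ hm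
  push_cast at h1
  have h3 : 0 ≤ x ^ i * y ^ j * z ^ k := by positivity
  rw [← mul_assoc]
  exact mul_le_mul_of_nonneg_right h1 h3

/-! ### change of the digit size -/

def conv1 (K K' sh P : ℕ) : ℕ → ℕ
  | 0 => 0
  | j + 1 => conv1 K K' sh P j + (((P >>> (K * j)) % 2 ^ K) >>> sh) <<< (K' * j)

def conv (K K' sh s P : ℕ) : ℕ → ℕ
  | 0 => 0
  | i + 1 => conv K K' sh s P i +
      (conv1 K K' sh ((P >>> (K * s * i)) % 2 ^ (K * s)) s) <<< (K' * s * i)

lemma conv1_eq (K K' sh P : ℕ) : ∀ j, conv1 K K' sh P j =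
    ∑ l ∈ range j, (dg K P l / 2 ^ sh) * 2 ^ (K' * l) := by
  intro j
  induction j with
  | zero => rfl
  | succ j ih =>
    rw [conv1, Finset.sum_range_succ, ih]
    unfold dg
    rw [Nat.shiftLeft_eq, Nat.shiftRight_eq_div_pow, Nat.shiftRight_eq_div_pow]

lemma conv_eq (K K' sh s P : ℕ) : ∀ i, conv K K' sh s P i =
    ∑ m ∈ range (i * s), (dg K P m / 2 ^ sh) * 2 ^ (K' * m) := by
  intro i
  rw [sum_range_mul']
  induction i with
  | zero => rfl
  | succ i ih =>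
    rw [conv, Finset.sum_range_succ, ih, conv1_eq, Nat.shiftLeft_eq, Finset.sum_mul]
    congr 1
    apply Finset.sum_congr rfl
    intro l hl
    rw [Finset.mem_range] at hl
    rw [Nat.shiftRight_eq_div_pow]
    have e : P / 2 ^ (K * s * i) % 2 ^ (K * s) = dg (K * s) P i := rfl
    rw [e, dg_dg i l hl, mul_assoc, ← pow_add]
    congr 2
    ring

end TamC
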