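import Pool.Agent.TamC.BB

/-!
# The branch and bound check and its soundness
-/

namespace TamC

open Finset

/-- subdivision trees -/
inductive Tr
  | lf
  | sk
  | dt
  | nd (a : ℕ) (x y : Tr)

lemma lf_opS (K s n H P β γ ε : ℕ) :
    TamC.lf K s (n + 1) H P β γ ε n = opS K s (n + 1) H P 0 β γ ε := by
  rw [lf_eq]
  unfold opS
  simp only [Nat.add_sub_cancel]

lemma rg_opS (K s n H P : ℕ) :
    rg K s (n + 1) H P n n = opS K s (n + 1) H P 1 2 1 0 := by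
  rw [rg_eq']
  unfold opS
  simp only [Nat.add_sub_cancel]

/-- left half along axis `a`, rescaled -/
def lop (K n1 n2 n3 a P : ℕ) : ℕ := match a with
  | 0 => nrm K n1 ((n1 + 1) * (n2 + 1) * (n3 + 1))
      (lfn K ((n2 + 1) * (n3 + 1)) (n1 + 1) 1 P n1)
  | 1 => nrm K n2 ((n1 + 1) * (n2 + 1) * (n3 + 1)) (lfn K (n3 + 1) (n2 + 1) (n1 + 1) P n2)
  | _ => nrm K n3 ((n1 + 1) * (n2 + 1) * (n3 + 1)) (lfn K 1 (n3 + 1) ((n1 + 1) * (n2 + 1)) P n3)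

/-- right half along axis `a`, rescaled -/
def rop (K n1 n2 n3 a P : ℕ) : ℕ := match a with
  | 0 => nrm K n1 ((n1 + 1) * (n2 + 1) * (n3 + 1))
      (rgn K ((n2 + 1) * (n3 + 1)) (n1 + 1) 1 P n1 n1)
  | 1 => nrm K n2 ((n1 + 1) * (n2 + 1) * (n3 + 1)) (rgn K (n3 + 1) (n2 + 1) (n1 + 1) P n2 n2)
  | _ => nrm K n3 ((n1 + 1) * (n2 + 1) * (n3 + 1)) (rgn K 1 (n3 + 1) ((n1 + 1) * (n2 + 1)) P n3 n3)

/-- all digits are `< 2^(K-g)` -/
def bd (K n1 n2 n3 g P : ℕ) : Bool :=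
  Nat.beq (P &&& hmask K g ((n1 + 1) * (n2 + 1) * (n3 + 1))) 0

/-- the check; `skp` recognises boxes which need not be considered -/
def chk (K n1 n2 n3 g : ℕ) (skp : ℕ → ℕ → ℕ → ℕ → ℕ → ℕ → Bool) :
    Tr → ℕ → ℕ → ℕ → ℕ → ℕ → ℕ → ℕ → ℕ → Bool
  | .lf, P, e, _, _, _, _, _, _ => leaf K n1 n2 n3 P e
  | .dt, _, _, l1, w1, l2, w2, l3, w3 => skp l1 w1 l2 w2 l3 w3
  | .sk, _, _, l1, _, l2, w2, l3, w3 => Nat.ble (l2 + w2) l1 || Nat.ble (l3 + w3) l2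
  | .nd a A B, P, e, l1, w1, l2, w2, l3, w3 => bd K n1 n2 n3 g P && (match a with
    | 0 => Nat.beq (w1 % 2) 0 &&
        (chk K n1 n2 n3 g skp A (lop K n1 n2 n3 0 P) e l1 (w1 / 2) l2 w2 l3 w3 &&
         chk K n1 n2 n3 g skp B (rop K n1 n2 n3 0 P) e (l1 + w1 / 2) (w1 / 2) l2 w2 l3 w3)
    | 1 => Nat.beq (w2 % 2) 0 &&
        (chk K n1 n2 n3 g skp A (lop K n1 n2 n3 1 P) e l1 w1 l2 (w2 / 2) l3 w3 &&
         chk K n1 n2 n3 g skp B (rop K n1 n2 n3 1 P) e l1 w1 (l2 + w2 / 2) (w2 / 2) l3 w3)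
    | _ => Nat.beq (w3 % 2) 0 &&
        (chk K n1 n2 n3 g skp A (lop K n1 n2 n3 2 P) e l1 w1 l2 w2 l3 (w3 / 2) &&
         chk K n1 n2 n3 g skp B (rop K n1 n2 n3 2 P) e l1 w1 l2 w2 (l3 + w3 / 2) (w3 / 2)))

/-- admissible parameters -/
def parOk (K n1 n2 n3 g : ℕ) : Bool :=
  Nat.blt 0 K && (Nat.ble g K && (Nat.ble n1 K && (Nat.ble n2 K && (Nat.ble n3 K && (Nat.blt (gr (n1 + 1) 0 1 2 1) (2 ^ g) &&
  (Nat.blt (gr (n2 + 1) 0 1 2 1) (2 ^ g) && (Nat.blt (gr (n3 + 1) 0 1 2 1) (2 ^ g) &&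
  (Nat.blt (gr (n1 + 1) 1 2 1 0) (2 ^ g) && (Nat.blt (gr (n2 + 1) 1 2 1 0) (2 ^ g) &&
   Nat.blt (gr (n3 + 1) 1 2 1 0) (2 ^ g))))))))))

/-- local coordinate -/
noncomputable def rho (l w : ℕ) (x : ℝ) : ℝ := (x - l) / (l + w - x)

lemma rho_nonneg {l w : ℕ} {x : ℝ} (h1 : (l : ℝ) ≤ x) (h2 : x < l + w) : 0 ≤ rho l w x := by
  unfold rho
  apply div_nonneg <;> linarith

/-- transfer -/
lemma transfer {n : ℕ} {e q F0 F1 T T' : ℝ} (hq : 0 < q) (hT : T * q ^ n = 2 ^ n * T')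
    (hF : F1 = q ^ n * F0) (h : e * 2 ^ n * T' ≤ F1) : e * T ≤ F0 := by
  have h1 : q ^ n * (e * T) ≤ q ^ n * F0 := by
    calc q ^ n * (e * T) = e * (T * q ^ n) := by ring
      _ = e * 2 ^ n * T' := by rw [hT]; ring
      _ ≤ _ := by rw [← hF]; exact h
  exact le_of_mul_le_mul_left h1 (by positivity)

/-- transfer through a rescaling -/
lemma transfer' {n K L P' n1 n2 n3 : ℕ} (hK : 0 < K) (hn : n ≤ K)
    (hL : L = (n1 + 1) * (n2 + 1) * (n3 + 1)) {x y z : ℝ} (hx : 0 ≤ x) (hy : 0 ≤ y) (hz : 0 ≤ z)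
    {e T' : ℝ}
    (h : e * T' ≤ F K (n1 + 1) (n2 + 1) (n3 + 1) (nrm K n L P') x y z) :
    e * 2 ^ n * T' ≤ F K (n1 + 1) (n2 + 1) (n3 + 1) P' x y z := by
  have h1 := F_le (K := K) (K' := K) (P := P') (Q := nrm K n L P') (c := 2 ^ n)
    (b1 := n1 + 1) (b2 := n2 + 1) (b3 := n3 + 1) (fun m hm => by
      rw [← hL] at hm
      rw [dg_nrm hK hn hm]
      exact Nat.mul_div_le _ _) hx hy hz
  push_cast at h1
  have h2 : (0 : ℝ) < 2 ^ n := by positivity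
  nlinarith [mul_le_mul_of_nonneg_left h h2.le]

lemma rho_left {l v : ℕ} {x : ℝ} (h1 : (l : ℝ) ≤ x) (h2 : x < l + v) :
    rho l (2 * v) x = ((0 : ℕ) + (1 : ℕ) * rho l v x) / ((2 : ℕ) + (1 : ℕ) * rho l v x) ∧
    0 < ((2 : ℕ) : ℝ) + (1 : ℕ) * rho l v x ∧
    (1 + rho l (2 * v) x) * (((2 : ℕ) : ℝ) + (1 : ℕ) * rho l v x) = 2 * (1 + rho l v x) := by
  have h3 := rho_nonneg h1 h2
  have hv : (0 : ℝ) < v := by linarith
  have h5 : 0 < ((2 : ℕ) : ℝ) + (1 : ℕ) * rho l v x := by push_cast; linarith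
  have h4 : rho l (2 * v) x = ((0 : ℕ) + (1 : ℕ) * rho l v x) / ((2 : ℕ) + (1 : ℕ) * rho l v x) := by
    have d1 : (0 : ℝ) < l + v - x := by linarith
    have d2 : (0 : ℝ) < l + ((2 * v : ℕ) : ℝ) - x := by push_cast; linarith
    have e1 : rho l v x * (l + v - x) = x - l := by
      unfold rho
      exact div_mul_cancel₀ _ d1.ne'
    conv_lhs => unfold rho
    rw [div_eq_div_iff d2.ne' h5.ne']
    push_cast
    linear_combination (-2) * e1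
  refine ⟨h4, h5, ?_⟩
  rw [h4]
  field_simp
  push_cast
  ring

lemma rho_right {l v : ℕ} {x : ℝ} (_h1 : ((l + v : ℕ) : ℝ) ≤ x) (h2 : x < (l + v : ℕ) + v) :
    rho l (2 * v) x = ((1 : ℕ) + (2 : ℕ) * rho (l + v) v x) / ((1 : ℕ) + (0 : ℕ) * rho (l + v) v x) ∧
    0 < ((1 : ℕ) : ℝ) + (0 : ℕ) * rho (l + v) v x ∧
    (1 + rho l (2 * v) x) * (((1 : ℕ) : ℝ) + (0 : ℕ) * rho (l + v) v x) =
      2 * (1 + rho (l + v) v x) := by
  push_cast at h2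
  have h4 : rho l (2 * v) x = ((1 : ℕ) + (2 : ℕ) * rho (l + v) v x) /
      ((1 : ℕ) + (0 : ℕ) * rho (l + v) v x) := by
    unfold rho
    have d2 : (0 : ℝ) < l + 2 * v - x := by linarith
    have d3 : (0 : ℝ) < l + v + v - x := by linarith
    push_cast
    rw [zero_mul, add_zero, div_one]
    field_simp
    ring
  refine ⟨h4, by push_cast; simp, ?_⟩
  rw [h4]
  push_cast
  ring

lemma bd_spec {K n1 n2 n3 g P : ℕ} (hK : 0 < K) (hg : g ≤ K)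
    (hP : P < 2 ^ (K * ((n1 + 1) * (n2 + 1) * (n3 + 1)))) (h : bd K n1 n2 n3 g P = true) (m : ℕ) :
    dg K P m ≤ 2 ^ (K - g) := by
  unfold bd at h
  rw [Nat.beq_eq] at h
  by_cases hm : m < (n1 + 1) * (n2 + 1) * (n3 + 1)
  · exact (hmask_spec hK hg h hm).le
  · rw [dg_of_lt hP (by omega)]
    exact Nat.zero_le _

lemma gr_mul {K g a : ℕ} (hg : g ≤ K) (h : a < 2 ^ g) : a * 2 ^ (K - g) < 2 ^ K := by
  have e : 2 ^ K = 2 ^ g * 2 ^ (K - g) := by rw [← pow_add]; congr 1; omega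
  rw [e]
  exact Nat.mul_lt_mul_of_pos_right h (by positivity)

/-- soundness of the check -/
theorem chk_sound {K n1 n2 n3 g : ℕ} (hpar : parOk K n1 n2 n3 g = true)
    {skp : ℕ → ℕ → ℕ → ℕ → ℕ → ℕ → Bool} {Good : ℝ → ℝ → ℝ → Prop}
    (hskp : ∀ l1 w1 l2 w2 l3 w3 : ℕ, skp l1 w1 l2 w2 l3 w3 = true → ∀ x y z : ℝ,
      (l1 : ℝ) ≤ x → x < l1 + w1 → (l2 : ℝ) ≤ y → y < l2 + w2 → (l3 : ℝ) ≤ z →
        z < l3 + w3 → ¬ Good x y z) :
    ∀ (t : Tr) (P e l1 w1 l2 w2 l3 w3 : ℕ),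
      P < 2 ^ (K * ((n1 + 1) * (n2 + 1) * (n3 + 1))) →
      chk K n1 n2 n3 g skp t P e l1 w1 l2 w2 l3 w3 = true →
      ∀ x y z : ℝ, (l1 : ℝ) ≤ x → x < l1 + w1 → (l2 : ℝ) ≤ y → y < l2 + w2 → (l3 : ℝ) ≤ z →
        z < l3 + w3 → x ≤ y → y ≤ z → Good x y z →
        (e : ℝ) * ((1 + rho l1 w1 x) ^ n1 * (1 + rho l2 w2 y) ^ n2 * (1 + rho l3 w3 z) ^ n3) ≤
          F K (n1 + 1) (n2 + 1) (n3 + 1) P (rho l1 w1 x) (rho l2 w2 y) (rho l3 w3 z) := by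
  unfold parOk at hpar
  simp only [Bool.and_eq_true, Nat.blt_eq, Nat.ble_eq] at hpar
  obtain ⟨hK, hgK, k1, k2, k3, a1, a2, a3, c1, c2, c3⟩ := hpar
  intro t
  induction t with
  | lf =>
    intro P e l1 w1 l2 w2 l3 w3 hP h x y z x1 x2 y1 y2 z1 z2 _ _ _
    exact leaf_sound hK hP h (rho_nonneg x1 x2) (rho_nonneg y1 y2) (rho_nonneg z1 z2)
  | dt =>
    intro P e l1 w1 l2 w2 l3 w3 hP h x y z x1 x2 y1 y2 z1 z2 _ _ hG
    exact absurd hG (hskp _ _ _ _ _ _ h x y z x1 x2 y1 y2 z1 z2)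
  | sk =>
    intro P e l1 w1 l2 w2 l3 w3 hP h x y z x1 x2 y1 y2 z1 z2 hxy hyz _
    exfalso
    unfold chk at h
    rw [Bool.or_eq_true, Nat.ble_eq, Nat.ble_eq] at h
    rcases h with h | h
    · have h' : ((l2 + w2 : ℕ) : ℝ) ≤ l1 := by exact_mod_cast h
      push_cast at h'
      linarith
    · have h' : ((l3 + w3 : ℕ) : ℝ) ≤ l2 := by exact_mod_cast h
      push_cast at h'
      linarith
  | nd a A B ihA ihB =>
    intro P e l1 w1 l2 w2 l3 w3 hP h x y z x1 x2 y1 y2 z1 z2 hxy hyz hG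
    unfold chk at h
    rw [Bool.and_eq_true] at h
    obtain ⟨hbd, h⟩ := h
    have hM := bd_spec hK hgK hP hbd
    have p1 : 0 < K * ((n2 + 1) * (n3 + 1)) * (n1 + 1) := by positivity
    have p2 : 0 < K * (n3 + 1) * (n2 + 1) := by positivity
    have p3 : 0 < K * 1 * (n3 + 1) := by positivity
    match a, h with
    | 0, h =>
      simp only [Bool.and_eq_true, Nat.beq_eq] at h
      obtain ⟨hw, hA, hB⟩ := h
      obtain ⟨v, rfl⟩ : ∃ v, w1 = 2 * v := ⟨w1 / 2, by omega⟩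
      rw [Nat.mul_div_cancel_left _ (by norm_num : 0 < 2)] at hA hB
      by_cases hx : x < l1 + v
      · obtain ⟨r1, r2, r3⟩ := rho_left x1 hx
        have hP' : lop K n1 n2 n3 0 P < 2 ^ (K * ((n1 + 1) * (n2 + 1) * (n3 + 1))) := nrm_lt hK k1
        have h3 := ihA _ _ _ _ _ _ _ _ hP' hA x y z x1 hx y1 y2 z1 z2 hxy hyz hG
        have h4 := F_op1 (b2 := n2 + 1) (b3 := n3 + 1) (α := 0) (β := 1) (γ := 2) (ε := 1) hK
          (Nat.succ_pos n1) (Nat.succ_pos n2) (Nat.succ_pos n3) hM (gr_mul hgK a1)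
          (rho l1 v x) (rho l2 w2 y) (rho l3 w3 z) r2.ne'
        rw [← r1] at h4
        have h6 := transfer' hK k1 rfl (rho_nonneg x1 hx)
          (rho_nonneg y1 y2) (rho_nonneg z1 z2) h3
        rw [lfn_eq, lf_opS] at h6
        refine transfer (n := n1) r2 ?_ h4 h6
        calc _ = ((1 + rho l1 (2 * v) x) * (((2 : ℕ) : ℝ) + (1 : ℕ) * rho l1 v x)) ^ n1 *
              ((1 + rho l2 w2 y) ^ n2 * (1 + rho l3 w3 z) ^ n3) := by rw [mul_pow]; ring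
          _ = _ := by rw [r3, mul_pow]; ring
      · push Not at hx
        have hx1 : ((l1 + v : ℕ) : ℝ) ≤ x := by push_cast; exact hx
        have hx2 : x < ((l1 + v : ℕ) : ℝ) + v := by push_cast at x2 ⊢; linarith
        obtain ⟨r1, r2, r3⟩ := rho_right hx1 hx2
        have hP' : rop K n1 n2 n3 0 P < 2 ^ (K * ((n1 + 1) * (n2 + 1) * (n3 + 1))) := nrm_lt hK k1
        have h3 := ihB _ _ _ _ _ _ _ _ hP' hB x y z hx1 hx2 y1 y2 z1 z2 hxy hyz hG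
        have h4 := F_op1 (b2 := n2 + 1) (b3 := n3 + 1) (α := 1) (β := 2) (γ := 1) (ε := 0) hK
          (Nat.succ_pos n1) (Nat.succ_pos n2) (Nat.succ_pos n3) hM (gr_mul hgK c1)
          (rho (l1 + v) v x) (rho l2 w2 y) (rho l3 w3 z) r2.ne'
        rw [← r1] at h4
        have h6 := transfer' hK k1 rfl (rho_nonneg hx1 hx2)
          (rho_nonneg y1 y2) (rho_nonneg z1 z2) h3
        rw [rgn_eq, rg_opS] at h6
        refine transfer (n := n1) r2 ?_ h4 h6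
        calc _ = ((1 + rho l1 (2 * v) x) * (((1 : ℕ) : ℝ) + (0 : ℕ) * rho (l1 + v) v x)) ^ n1 *
              ((1 + rho l2 w2 y) ^ n2 * (1 + rho l3 w3 z) ^ n3) := by rw [mul_pow]; ring
          _ = _ := by rw [r3, mul_pow]; ring
    | 1, h =>
      simp only [Bool.and_eq_true, Nat.beq_eq] at h
      obtain ⟨hw, hA, hB⟩ := h
      obtain ⟨v, rfl⟩ : ∃ v, w2 = 2 * v := ⟨w2 / 2, by omega⟩
      rw [Nat.mul_div_cancel_left _ (by norm_num : 0 < 2)] at hA hB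
      by_cases hx : y < l2 + v
      · obtain ⟨r1, r2, r3⟩ := rho_left y1 hx
        have hP' : lop K n1 n2 n3 1 P < 2 ^ (K * ((n1 + 1) * (n2 + 1) * (n3 + 1))) := nrm_lt hK k2
        have h3 := ihA _ _ _ _ _ _ _ _ hP' hA x y z x1 x2 y1 hx z1 z2 hxy hyz hG
        have h4 := F_op2 (b1 := n1 + 1) (b3 := n3 + 1) (α := 0) (β := 1) (γ := 2) (ε := 1) hK
          (Nat.succ_pos n2) (Nat.succ_pos n3) hM (gr_mul hgK a2)
          (rho l1 w1 x) (rho l2 v y) (rho l3 w3 z) r2.ne'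
        rw [← r1] at h4
        have h6 := transfer' hK k2 rfl (rho_nonneg x1 x2)
          (rho_nonneg y1 hx) (rho_nonneg z1 z2) h3
        rw [lfn_eq, lf_opS] at h6
        refine transfer (n := n2) r2 ?_ h4 h6
        calc _ = ((1 + rho l2 (2 * v) y) * (((2 : ℕ) : ℝ) + (1 : ℕ) * rho l2 v y)) ^ n2 *
              ((1 + rho l1 w1 x) ^ n1 * (1 + rho l3 w3 z) ^ n3) := by rw [mul_pow]; ring
          _ = _ := by rw [r3, mul_pow]; ring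
      · push Not at hx
        have hx1 : ((l2 + v : ℕ) : ℝ) ≤ y := by push_cast; exact hx
        have hx2 : y < ((l2 + v : ℕ) : ℝ) + v := by push_cast at y2 ⊢; linarith
        obtain ⟨r1, r2, r3⟩ := rho_right hx1 hx2
        have hP' : rop K n1 n2 n3 1 P < 2 ^ (K * ((n1 + 1) * (n2 + 1) * (n3 + 1))) := nrm_lt hK k2
        have h3 := ihB _ _ _ _ _ _ _ _ hP' hB x y z x1 x2 hx1 hx2 z1 z2 hxy hyz hG
        have h4 := F_op2 (b1 := n1 + 1) (b3 := n3 + 1) (α := 1) (β := 2) (γ := 1) (ε := 0) hK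
          (Nat.succ_pos n2) (Nat.succ_pos n3) hM (gr_mul hgK c2)
          (rho l1 w1 x) (rho (l2 + v) v y) (rho l3 w3 z) r2.ne'
        rw [← r1] at h4
        have h6 := transfer' hK k2 rfl (rho_nonneg x1 x2)
          (rho_nonneg hx1 hx2) (rho_nonneg z1 z2) h3
        rw [rgn_eq, rg_opS] at h6
        refine transfer (n := n2) r2 ?_ h4 h6
        calc _ = ((1 + rho l2 (2 * v) y) * (((1 : ℕ) : ℝ) + (0 : ℕ) * rho (l2 + v) v y)) ^ n2 *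
              ((1 + rho l1 w1 x) ^ n1 * (1 + rho l3 w3 z) ^ n3) := by rw [mul_pow]; ring
          _ = _ := by rw [r3, mul_pow]; ring
    | (k + 2), h =>
      simp only [Bool.and_eq_true, Nat.beq_eq] at h
      obtain ⟨hw, hA, hB⟩ := h
      obtain ⟨v, rfl⟩ : ∃ v, w3 = 2 * v := ⟨w3 / 2, by omega⟩
      rw [Nat.mul_div_cancel_left _ (by norm_num : 0 < 2)] at hA hB
      by_cases hx : z < l3 + v
      · obtain ⟨r1, r2, r3⟩ := rho_left z1 hx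
        have hP' : lop K n1 n2 n3 2 P < 2 ^ (K * ((n1 + 1) * (n2 + 1) * (n3 + 1))) := nrm_lt hK k3
        have h3 := ihA _ _ _ _ _ _ _ _ hP' hA x y z x1 x2 y1 y2 z1 hx hxy hyz hG
        have h4 := F_op3 (b1 := n1 + 1) (b2 := n2 + 1) (α := 0) (β := 1) (γ := 2) (ε := 1) hK
          (Nat.succ_pos n3) hM (gr_mul hgK a3)
          (rho l1 w1 x) (rho l2 w2 y) (rho l3 v z) r2.ne'
        rw [← r1] at h4
        have h6 := transfer' hK k3 rfl (rho_nonneg x1 x2)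
          (rho_nonneg y1 y2) (rho_nonneg z1 hx) h3
        rw [lfn_eq, lf_opS] at h6
        refine transfer (n := n3) r2 ?_ h4 h6
        calc _ = ((1 + rho l3 (2 * v) z) * (((2 : ℕ) : ℝ) + (1 : ℕ) * rho l3 v z)) ^ n3 *
              ((1 + rho l1 w1 x) ^ n1 * (1 + rho l2 w2 y) ^ n2) := by rw [mul_pow]; ring
          _ = _ := by rw [r3, mul_pow]; ring
      · push Not at hx
        have hx1 : ((l3 + v : ℕ) : ℝ) ≤ z := by push_cast; exact hx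
        have hx2 : z < ((l3 + v : ℕ) : ℝ) + v := by push_cast at z2 ⊢; linarith
        obtain ⟨r1, r2, r3⟩ := rho_right hx1 hx2
        have hP' : rop K n1 n2 n3 2 P < 2 ^ (K * ((n1 + 1) * (n2 + 1) * (n3 + 1))) := nrm_lt hK k3
        have h3 := ihB _ _ _ _ _ _ _ _ hP' hB x y z x1 x2 y1 y2 hx1 hx2 hxy hyz hG
        have h4 := F_op3 (b1 := n1 + 1) (b2 := n2 + 1) (α := 1) (β := 2) (γ := 1) (ε := 0) hK
          (Nat.succ_pos n3) hM (gr_mul hgK c3)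
          (rho l1 w1 x) (rho l2 w2 y) (rho (l3 + v) v z) r2.ne'
        rw [← r1] at h4
        have h6 := transfer' hK k3 rfl (rho_nonneg x1 x2)
          (rho_nonneg y1 y2) (rho_nonneg hx1 hx2) h3
        rw [rgn_eq, rg_opS] at h6
        refine transfer (n := n3) r2 ?_ h4 h6
        calc _ = ((1 + rho l3 (2 * v) z) * (((1 : ℕ) : ℝ) + (0 : ℕ) * rho (l3 + v) v z)) ^ n3 *
              ((1 + rho l1 w1 x) ^ n1 * (1 + rho l2 w2 y) ^ n2) := by rw [mul_pow]; ring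
          _ = _ := by rw [r3, mul_pow]; ring

/-! ### composing checks -/

lemma chk_nd0 {K n1 n2 n3 g : ℕ} {skp : ℕ → ℕ → ℕ → ℕ → ℕ → ℕ → Bool} {A B : Tr}
    {P e l1 v l2 w2 l3 w3 r w1 : ℕ} (hb : bd K n1 n2 n3 g P = true)
    (hw : w1 = 2 * v ∧ r = l1 + v)
    (hA : chk K n1 n2 n3 g skp A (lop K n1 n2 n3 0 P) e l1 v l2 w2 l3 w3 = true)
    (hB : chk K n1 n2 n3 g skp B (rop K n1 n2 n3 0 P) e r v l2 w2 l3 w3 = true) :
    chk K n1 n2 n3 g skp (.nd 0 A B) P e l1 w1 l2 w2 l3 w3 = true := by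
  obtain ⟨rfl, rfl⟩ := hw
  unfold chk
  rw [Nat.mul_div_cancel_left _ (by norm_num : 0 < 2), Nat.mul_mod_right, hb, hA, hB]
  rfl

lemma chk_nd1 {K n1 n2 n3 g : ℕ} {skp : ℕ → ℕ → ℕ → ℕ → ℕ → ℕ → Bool} {A B : Tr}
    {P e l1 w1 l2 v l3 w3 r w2 : ℕ} (hb : bd K n1 n2 n3 g P = true)
    (hw : w2 = 2 * v ∧ r = l2 + v)
    (hA : chk K n1 n2 n3 g skp A (lop K n1 n2 n3 1 P) e l1 w1 l2 v l3 w3 = true)
    (hB : chk K n1 n2 n3 g skp B (rop K n1 n2 n3 1 P) e l1 w1 r v l3 w3 = true) :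
    chk K n1 n2 n3 g skp (.nd 1 A B) P e l1 w1 l2 w2 l3 w3 = true := by
  obtain ⟨rfl, rfl⟩ := hw
  unfold chk
  rw [Nat.mul_div_cancel_left _ (by norm_num : 0 < 2), Nat.mul_mod_right, hb, hA, hB]
  rfl

lemma chk_nd2 {K n1 n2 n3 g : ℕ} {skp : ℕ → ℕ → ℕ → ℕ → ℕ → ℕ → Bool} {A B : Tr}
    {P e l1 w1 l2 w2 l3 v r w3 : ℕ} (hb : bd K n1 n2 n3 g P = true)
    (hw : w3 = 2 * v ∧ r = l3 + v)
    (hA : chk K n1 n2 n3 g skp A (lop K n1 n2 n3 2 P) e l1 w1 l2 w2 l3 v = true)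
    (hB : chk K n1 n2 n3 g skp B (rop K n1 n2 n3 2 P) e l1 w1 l2 w2 r v = true) :
    chk K n1 n2 n3 g skp (.nd 2 A B) P e l1 w1 l2 w2 l3 w3 = true := by
  obtain ⟨rfl, rfl⟩ := hw
  unfold chk
  rw [Nat.mul_div_cancel_left _ (by norm_num : 0 < 2), Nat.mul_mod_right, hb, hA, hB]
  rfl

end TamC
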