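import Pool.Agent.TamC.Root

/-!
# The complete check for the nonnegativity of a polynomial on a box
-/

namespace TamC

open Finset Polynomial

/-- substitution `y = (Wn/Wd) ρ/(1+ρ)` in the three variables -/
def rt (K n1 n2 n3 Wn Wd P : ℕ) : ℕ :=
  TamC.lf K 1 (n3 + 1) ((n1 + 1) * (n2 + 1))
    (TamC.lf K (n3 + 1) (n2 + 1) (n1 + 1)
      (TamC.lf K ((n2 + 1) * (n3 + 1)) (n1 + 1) 1 P Wn Wd Wd n1) Wn Wd Wd n2) Wn Wd Wd n3

lemma cc_le {K s b P α β γ ε Mx : ℕ} (hb : 0 < b)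
    (hM : ∀ m, dg K P m ≤ Mx) (m : ℕ) :
    cc K s b P α β γ ε m ≤ gr b α β γ ε * Mx := by
  unfold cc gr
  rw [Finset.sum_mul]
  apply Finset.sum_le_sum
  intro a ha
  rw [Finset.mem_range] at ha
  exact Nat.mul_le_mul (Tc_le ha (Nat.mod_lt _ hb)) (hM _)

lemma dg_opS_le {K s b H P α β γ ε Mx : ℕ} (hpos : 0 < K * s * b)
    (hM : ∀ m, dg K P m ≤ Mx) (hg : gr b α β γ ε * Mx < 2 ^ K) (m : ℕ) :
    dg K (opS K s b H P α β γ ε) m ≤ gr b α β γ ε * Mx := by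
  have hb : 0 < b := by
    rcases Nat.eq_zero_or_pos b with h | h
    · subst h; simp at hpos
    · exact h
  by_cases hm : m < H * b * s
  · rw [opS_eq hpos, dg_sum K _ _ (fun m _ => cc_lt hb hM hg m) m hm]
    exact cc_le hb hM m
  · rw [dg_of_lt (opS_lt hpos hM hg) (by omega)]
    exact Nat.zero_le _

lemma gr_pos {b β γ ε : ℕ} (hb : 0 < b) (hγ : 0 < γ + ε) : 0 < gr b 0 β γ ε := by
  unfold gr
  apply Finset.sum_pos' (fun _ _ => Nat.zero_le _)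
  refine ⟨0, Finset.mem_range.mpr hb, ?_⟩
  simp only [pow_zero, one_mul]
  exact Nat.pow_pos hγ

/-- the root transformation -/
lemma rt_spec {K n1 n2 n3 Wn Wd P M : ℕ} (hK : 0 < K) (hWd : 0 < Wd)
    (hP : ∀ m, dg K P m ≤ M)
    (hg : gr (n1 + 1) 0 Wn Wd Wd * (gr (n2 + 1) 0 Wn Wd Wd * (gr (n3 + 1) 0 Wn Wd Wd * M)) <
      2 ^ (K - 1)) :
    rt K n1 n2 n3 Wn Wd P < 2 ^ (K * ((n1 + 1) * (n2 + 1) * (n3 + 1))) ∧
    (∀ m, dg K (rt K n1 n2 n3 Wn Wd P) m < 2 ^ (K - 1)) ∧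
    ∀ x y z : ℝ, 0 ≤ x → 0 ≤ y → 0 ≤ z →
      F K (n1 + 1) (n2 + 1) (n3 + 1) (rt K n1 n2 n3 Wn Wd P) x y z =
        ((Wd : ℝ) + Wd * z) ^ n3 * (((Wd : ℝ) + Wd * y) ^ n2 * (((Wd : ℝ) + Wd * x) ^ n1 *
          F K (n1 + 1) (n2 + 1) (n3 + 1) P ((Wn * x) / (Wd + Wd * x)) ((Wn * y) / (Wd + Wd * y))
            ((Wn * z) / (Wd + Wd * z)))) := by
  have h2 : 2 ^ (K - 1) ≤ 2 ^ K := Nat.pow_le_pow_right (by norm_num) (by omega)
  have g1 : 0 < gr (n1 + 1) 0 Wn Wd Wd := gr_pos (Nat.succ_pos _) (by omega)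
  have g2 : 0 < gr (n2 + 1) 0 Wn Wd Wd := gr_pos (Nat.succ_pos _) (by omega)
  have g3 : 0 < gr (n3 + 1) 0 Wn Wd Wd := gr_pos (Nat.succ_pos _) (by omega)
  set a1 := gr (n1 + 1) 0 Wn Wd Wd with ha1
  set a2 := gr (n2 + 1) 0 Wn Wd Wd with ha2
  set a3 := gr (n3 + 1) 0 Wn Wd Wd with ha3
  have q1 : 0 < K * ((n2 + 1) * (n3 + 1)) * (n1 + 1) := by positivity
  have q2 : 0 < K * (n3 + 1) * (n2 + 1) := by positivity
  have q3 : 0 < K * 1 * (n3 + 1) := by positivity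
  have e3 : a3 * (a2 * (a1 * M)) < 2 ^ (K - 1) := by
    calc a3 * (a2 * (a1 * M)) = a1 * (a2 * (a3 * M)) := by ring
      _ < _ := hg
  have e2 : a2 * (a1 * M) < 2 ^ K :=
    lt_of_le_of_lt (Nat.le_mul_of_pos_left _ g3) (lt_of_lt_of_le e3 h2)
  have e1 : a1 * M < 2 ^ K := lt_of_le_of_lt (Nat.le_mul_of_pos_left _ g2) e2
  set P1 := opS K ((n2 + 1) * (n3 + 1)) (n1 + 1) 1 P 0 Wn Wd Wd with hP1
  have d1 : ∀ m, dg K P1 m ≤ a1 * M := dg_opS_le q1 hP e1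
  set P2 := opS K (n3 + 1) (n2 + 1) (n1 + 1) P1 0 Wn Wd Wd with hP2
  have d2 : ∀ m, dg K P2 m ≤ a2 * (a1 * M) := dg_opS_le q2 d1 e2
  set P3 := opS K 1 (n3 + 1) ((n1 + 1) * (n2 + 1)) P2 0 Wn Wd Wd with hP3
  have e3' : a3 * (a2 * (a1 * M)) < 2 ^ K := lt_of_lt_of_le e3 h2
  have d3 : ∀ m, dg K P3 m ≤ a3 * (a2 * (a1 * M)) := dg_opS_le q3 d2 e3'
  have hrt : rt K n1 n2 n3 Wn Wd P = P3 := by
    unfold rt
    rw [lf_opS, lf_opS, lf_opS]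
  rw [hrt]
  refine ⟨?_, fun m => lt_of_le_of_lt (d3 m) e3, ?_⟩
  · have := opS_lt (H := (n1 + 1) * (n2 + 1)) (α := 0) (β := Wn) (γ := Wd) (ε := Wd) q3 d2 e3'
    rwa [mul_one] at this
  · intro x y z hx hy hz
    have hWd' : (0 : ℝ) < Wd := by exact_mod_cast hWd
    have n1' : (Wd : ℝ) + Wd * x ≠ 0 := by positivity
    have n2' : (Wd : ℝ) + Wd * y ≠ 0 := by positivity
    have n3' : (Wd : ℝ) + Wd * z ≠ 0 := by positivity
    rw [hP3, F_op3 hK (Nat.succ_pos _) d2 e3' x y z n3', hP2,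
      F_op2 hK (Nat.succ_pos _) (Nat.succ_pos _) d1 e2 x y _ n2', hP1,
      F_op1 hK (Nat.succ_pos _) (Nat.succ_pos _) (Nat.succ_pos _) hP e1 x _ _ n1']
    simp only [Nat.succ_eq_add_one, Nat.add_sub_cancel, Nat.cast_zero, zero_add]

/-- the root polynomial with its offset -/
def P0 (K n1 n2 n3 Wn Wd e0 PA PB : ℕ) : ℕ :=
  (rt K n1 n2 n3 Wn Wd PA + e0 * EE K n1 n2 n3) - rt K n1 n2 n3 Wn Wd PB

/-- the checks at the root; `E a b c` are the values of the two parts of the polynomial and `Pl` is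
the packed polynomial in the digit size `K'` -/
def root (K n1 n2 n3 T M Wn Wd e0 : ℕ) (E : ℕ → ℕ → ℕ → ℕ × ℕ) (K' sh g0 e1 Pl : ℕ) : Bool :=
  Nat.blt 0 K && (Nat.ble (E 1 1 1).1 M && (Nat.ble (E 1 1 1).2 M &&
  (Nat.blt (E T 1 1).1 (T ^ (n1 + 1)) && (Nat.blt (E T 1 1).2 (T ^ (n1 + 1)) &&
  (Nat.blt (E 1 T 1).1 (T ^ (n2 + 1)) && (Nat.blt (E 1 T 1).2 (T ^ (n2 + 1)) &&
  (Nat.blt (E 1 1 T).1 (T ^ (n3 + 1)) && (Nat.blt (E 1 1 T).2 (T ^ (n3 + 1)) &&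
  (Nat.blt (gr (n1 + 1) 0 Wn Wd Wd * (gr (n2 + 1) 0 Wn Wd Wd * (gr (n3 + 1) 0 Wn Wd Wd * M)))
    (2 ^ (K - 1)) && (Nat.blt (e0 * 2 ^ (n1 + n2 + n3)) (2 ^ (K - 1)) &&
  (Nat.ble 2 T && (Nat.blt 0 Wd && (Nat.ble 1 g0 && (Nat.ble g0 K && (Nat.ble (K - g0) (K' + sh) &&
  (Nat.ble e0 (e1 * 2 ^ sh) &&
  (Nat.ble (rt K n1 n2 n3 Wn Wd (E (2 ^ (K * ((n2 + 1) * (n3 + 1)))) (2 ^ (K * (n3 + 1))) (2 ^ K)).2)
    (rt K n1 n2 n3 Wn Wd (E (2 ^ (K * ((n2 + 1) * (n3 + 1)))) (2 ^ (K * (n3 + 1))) (2 ^ K)).1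
      + e0 * EE K n1 n2 n3) &&
  (bd K n1 n2 n3 g0 (P0 K n1 n2 n3 Wn Wd e0
    (E (2 ^ (K * ((n2 + 1) * (n3 + 1)))) (2 ^ (K * (n3 + 1))) (2 ^ K)).1
    (E (2 ^ (K * ((n2 + 1) * (n3 + 1)))) (2 ^ (K * (n3 + 1))) (2 ^ K)).2) &&
  Nat.beq (conv K K' sh ((n2 + 1) * (n3 + 1)) (P0 K n1 n2 n3 Wn Wd e0
    (E (2 ^ (K * ((n2 + 1) * (n3 + 1)))) (2 ^ (K * (n3 + 1))) (2 ^ K)).1
    (E (2 ^ (K * ((n2 + 1) * (n3 + 1)))) (2 ^ (K * (n3 + 1))) (2 ^ K)).2) (n1 + 1)) Pl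
  ))))))))))))))))))

lemma F_add {K n1 n2 n3 P Q R S : ℕ}
    (h : ∀ m < (n1 + 1) * (n2 + 1) * (n3 + 1), dg K P m + dg K Q m = dg K R m + S *
      (n1.choose (m / (n3 + 1) / (n2 + 1)) * n2.choose (m / (n3 + 1) % (n2 + 1)) *
      n3.choose (m % (n3 + 1)))) (x y z : ℝ) :
    F K (n1 + 1) (n2 + 1) (n3 + 1) P x y z + F K (n1 + 1) (n2 + 1) (n3 + 1) Q x y z =
      F K (n1 + 1) (n2 + 1) (n3 + 1) R x y z +
        (S : ℝ) * ((1 + x) ^ n1 * (1 + y) ^ n2 * (1 + z) ^ n3) := by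
  unfold F
  rw [add_comm 1 x, add_comm 1 y, add_comm 1 z, add_pow, add_pow, add_pow]
  simp only [one_pow, mul_one]
  rw [Finset.sum_mul_sum, Finset.sum_mul, Finset.mul_sum, ← Finset.sum_add_distrib,
    ← Finset.sum_add_distrib]
  apply Finset.sum_congr rfl
  intro i hi
  rw [Finset.sum_mul_sum, Finset.mul_sum, ← Finset.sum_add_distrib, ← Finset.sum_add_distrib]
  apply Finset.sum_congr rfl
  intro j hj
  rw [Finset.mul_sum, ← Finset.sum_add_distrib, ← Finset.sum_add_distrib]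
  apply Finset.sum_congr rfl
  intro k hk
  rw [Finset.mem_range] at hi hj hk
  have e1 : ((i * (n2 + 1) + j) * (n3 + 1) + k) / (n3 + 1) = i * (n2 + 1) + j := by
    rw [mul_comm, Nat.mul_add_div (by omega), Nat.div_eq_of_lt hk, add_zero]
  have e2 : ((i * (n2 + 1) + j) * (n3 + 1) + k) % (n3 + 1) = k := by
    rw [mul_comm, Nat.mul_add_mod, Nat.mod_eq_of_lt hk]
  have e3 : (i * (n2 + 1) + j) / (n2 + 1) = i := by
    rw [mul_comm, Nat.mul_add_div (by omega), Nat.div_eq_of_lt hj, add_zero]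
  have e4 : (i * (n2 + 1) + j) % (n2 + 1) = j := by
    rw [mul_comm, Nat.mul_add_mod, Nat.mod_eq_of_lt hj]
  have hm : (i * (n2 + 1) + j) * (n3 + 1) + k < (n1 + 1) * (n2 + 1) * (n3 + 1) := by
    have h1 : i * (n2 + 1) + j + 1 ≤ (n1 + 1) * (n2 + 1) := by
      have : (i + 1) * (n2 + 1) ≤ (n1 + 1) * (n2 + 1) := Nat.mul_le_mul_right _ hi
      rw [Nat.succ_mul] at this
      omega
    have h2 : (i * (n2 + 1) + j + 1) * (n3 + 1) ≤ (n1 + 1) * (n2 + 1) * (n3 + 1) :=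
      Nat.mul_le_mul_right _ h1
    rw [Nat.succ_mul (i * (n2 + 1) + j)] at h2
    omega
  have h1 := h _ hm
  rw [e1, e2, e3, e4] at h1
  have h2 : (dg K P ((i * (n2 + 1) + j) * (n3 + 1) + k) : ℝ) +
      (dg K Q ((i * (n2 + 1) + j) * (n3 + 1) + k) : ℝ) =
      (dg K R ((i * (n2 + 1) + j) * (n3 + 1) + k) : ℝ) +
      (S : ℝ) * ((n1.choose i : ℝ) * (n2.choose j) * (n3.choose k)) := by exact_mod_cast h1
  linear_combination (x ^ i * y ^ j * z ^ k) * h2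

/-- **Soundness of the complete check.** -/
theorem full_sound {K n1 n2 n3 g T M Wn Wd e0 K' sh g0 e1 Pl : ℕ} {E : ℕ → ℕ → ℕ → ℕ × ℕ} {t : Tr}
    {skp : ℕ → ℕ → ℕ → ℕ → ℕ → ℕ → Bool} {Good : ℝ → ℝ → ℝ → Prop}
    (hskp : ∀ l1 w1 l2 w2 l3 w3 : ℕ, skp l1 w1 l2 w2 l3 w3 = true → ∀ x y z : ℝ,
      (l1 : ℝ) ≤ x → x < l1 + w1 → (l2 : ℝ) ≤ y → y < l2 + w2 → (l3 : ℝ) ≤ z →
        z < l3 + w3 → ¬ Good x y z)
    {l1 w1 l2 w2 l3 w3 : ℕ} (pA pB : Polynomial (Polynomial (Polynomial ℕ)))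
    (hE : ∀ a b c, E a b c = (ev a b c pA, ev a b c pB))
    (h : root K n1 n2 n3 T M Wn Wd e0 E K' sh g0 e1 Pl = true)
    (hpar : parOk K' n1 n2 n3 g = true)
    (hchk : chk K' n1 n2 n3 g skp t Pl e1 l1 w1 l2 w2 l3 w3 = true)
    {x y z : ℝ} (x1 : (l1 : ℝ) ≤ x) (x2 : x < l1 + w1) (y1 : (l2 : ℝ) ≤ y) (y2 : y < l2 + w2)
    (z1 : (l3 : ℝ) ≤ z) (z2 : z < l3 + w3) (hxy : x ≤ y) (hyz : y ≤ z) (hG : Good x y z) :
    ev ((Wn * rho l1 w1 x) / (Wd + Wd * rho l1 w1 x)) ((Wn * rho l2 w2 y) / (Wd + Wd * rho l2 w2 y))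
      ((Wn * rho l3 w3 z) / (Wd + Wd * rho l3 w3 z)) pB ≤
    ev ((Wn * rho l1 w1 x) / (Wd + Wd * rho l1 w1 x)) ((Wn * rho l2 w2 y) / (Wd + Wd * rho l2 w2 y))
      ((Wn * rho l3 w3 z) / (Wd + Wd * rho l3 w3 z)) pA := by
  unfold root at h
  simp only [Bool.and_eq_true, Nat.blt_eq, Nat.ble_eq, Nat.beq_eq, hE] at h
  obtain ⟨hK, m1, m2, t1, t2, t3, t4, t5, t6, hgr, he0, hT, hWd, hg1, hgK, hKK, hee, hle, hbd,
    hcv⟩ := h
  have dA := Dg_of hT (Nat.succ_pos n1) (Nat.succ_pos n2) (Nat.succ_pos n3) t1 t3 t5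
  have dB := Dg_of hT (Nat.succ_pos n1) (Nat.succ_pos n2) (Nat.succ_pos n3) t2 t4 t6
  have h2 : 2 ^ (K - 1) ≤ 2 ^ K := Nat.pow_le_pow_right (by norm_num) (by omega)
  have g1 : 0 < gr (n1 + 1) 0 Wn Wd Wd := gr_pos (Nat.succ_pos _) (by omega)
  have g2 : 0 < gr (n2 + 1) 0 Wn Wd Wd := gr_pos (Nat.succ_pos _) (by omega)
  have g3 : 0 < gr (n3 + 1) 0 Wn Wd Wd := gr_pos (Nat.succ_pos _) (by omega)
  have hM : M < 2 ^ K := by
    refine lt_of_le_of_lt ?_ (lt_of_lt_of_le hgr h2)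
    exact (Nat.le_mul_of_pos_left _ g3).trans
      ((Nat.le_mul_of_pos_left _ g2).trans (Nat.le_mul_of_pos_left _ g1))
  obtain ⟨kA1, kA2, kA3⟩ := kron (K := K) (Nat.succ_pos n2) (Nat.succ_pos n3) dA
    (lt_of_le_of_lt m1 hM)
  obtain ⟨kB1, kB2, kB3⟩ := kron (K := K) (Nat.succ_pos n2) (Nat.succ_pos n3) dB
    (lt_of_le_of_lt m2 hM)
  set PA := ev (2 ^ (K * ((n2 + 1) * (n3 + 1)))) (2 ^ (K * (n3 + 1))) (2 ^ K) pA with hPA
  set PB := ev (2 ^ (K * ((n2 + 1) * (n3 + 1)))) (2 ^ (K * (n3 + 1))) (2 ^ K) pB with hPB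
  obtain ⟨rA1, rA2, rA3⟩ := rt_spec hK hWd (fun m => (kA2 m).trans m1) hgr
  obtain ⟨rB1, rB2, rB3⟩ := rt_spec hK hWd (fun m => (kB2 m).trans m2) hgr
  set QA := rt K n1 n2 n3 Wn Wd PA with hQA
  set QB := rt K n1 n2 n3 Wn Wd PB with hQB
  set R := P0 K n1 n2 n3 Wn Wd e0 PA PB with hR
  set L := (n1 + 1) * (n2 + 1) * (n3 + 1) with hL
  set cE : ℕ → ℕ := fun m => n1.choose (m / (n3 + 1) / (n2 + 1)) *
    n2.choose (m / (n3 + 1) % (n2 + 1)) * n3.choose (m % (n3 + 1)) with hcE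
  have hRQ : R + QB = QA + e0 * EE K n1 n2 n3 := by
    have : R = (QA + e0 * EE K n1 n2 n3) - QB := rfl
    omega
  have h8 : 2 ^ K = 2 ^ (K - 1) + 2 ^ (K - 1) := by
    rw [← two_mul, ← pow_succ']
    congr 1
    omega
  have hcEle : ∀ m, e0 * cE m < 2 ^ (K - 1) := by
    intro m
    refine lt_of_le_of_lt (Nat.mul_le_mul_left _ ?_) he0
    simp only [hcE]
    rw [pow_add, pow_add]
    exact Nat.mul_le_mul (Nat.mul_le_mul (Nat.choose_le_two_pow _ _) (Nat.choose_le_two_pow _ _))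
      (Nat.choose_le_two_pow _ _)
  have hsum1 : QA + e0 * EE K n1 n2 n3 =
      ∑ m ∈ range L, (dg K QA m + e0 * cE m) * 2 ^ (K * m) := by
    rw [EE_eq]
    conv_lhs => rw [expand K L QA rA1]
    rw [Finset.mul_sum, ← Finset.sum_add_distrib]
    apply Finset.sum_congr rfl
    intro m _
    simp only [hcE]
    ring
  have hb1 : ∀ m < L, dg K QA m + e0 * cE m < 2 ^ K := by
    intro m _
    have := rA2 m
    have := hcEle m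
    omega
  have hRlt : R < 2 ^ (K * L) := by
    have h9 := sum_lt K L _ hb1
    rw [← hsum1] at h9
    omega
  have hRd0 : ∀ m < L, dg K R m < 2 ^ (K - g0) := by
    intro m hm
    unfold bd at hbd
    rw [Nat.beq_eq] at hbd
    exact hmask_spec hK hgK hbd hm
  have hRd : ∀ m < L, dg K R m < 2 ^ (K - 1) := by
    intro m hm
    exact lt_of_lt_of_le (hRd0 m hm) (Nat.pow_le_pow_right (by norm_num) (by omega))
  have hcv2 : Pl = ∑ m ∈ range L, (dg K R m / 2 ^ sh) * 2 ^ (K' * m) := by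
    rw [← hcv, conv_eq, ← Nat.mul_assoc (n1 + 1)]
  have hdl : ∀ m < L, dg K R m / 2 ^ sh < 2 ^ K' := by
    intro m hm
    rw [Nat.div_lt_iff_lt_mul (by positivity), ← pow_add]
    exact lt_of_lt_of_le (hRd0 m hm) (Nat.pow_le_pow_right (by norm_num) hKK)
  have hPllt : Pl < 2 ^ (K' * L) := by
    rw [hcv2]
    exact sum_lt K' L _ hdl
  have hPld : ∀ m < L, dg K' Pl m = dg K R m / 2 ^ sh := by
    intro m hm
    rw [hcv2]
    exact dg_sum K' L _ hdl m hm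
  have hsum2 : R + QB = ∑ m ∈ range L, (dg K R m + dg K QB m) * 2 ^ (K * m) := by
    conv_lhs => rw [expand K L R hRlt, expand K L QB rB1]
    rw [← Finset.sum_add_distrib]
    apply Finset.sum_congr rfl
    intro m _
    ring
  have hb2 : ∀ m < L, dg K R m + dg K QB m < 2 ^ K := by
    intro m hm
    have := hRd m hm
    have := rB2 m
    omega
  have hdig : ∀ m < L, dg K R m + dg K QB m = dg K QA m + e0 * cE m := by
    intro m hm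
    rw [← dg_sum K L _ hb2 m hm, ← dg_sum K L _ hb1 m hm, ← hsum1, ← hsum2, hRQ]
  have hF := F_add (K := K) (P := R) (Q := QB) (R := QA) (S := e0) hdig
    (rho l1 w1 x) (rho l2 w2 y) (rho l3 w3 z)
  have hs := chk_sound hpar hskp t Pl e1 l1 w1 l2 w2 l3 w3 hPllt hchk x y z x1 x2 y1 y2 z1 z2
    hxy hyz hG
  have r1 := rho_nonneg x1 x2
  have r2 := rho_nonneg y1 y2
  have r3 := rho_nonneg z1 z2
  have hFl := F_le (K := K) (K' := K') (P := R) (Q := Pl) (c := 2 ^ sh)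
    (b1 := n1 + 1) (b2 := n2 + 1) (b3 := n3 + 1) (fun m hm => by
      rw [hPld m hm]
      exact Nat.mul_div_le _ _) r1 r2 r3
  have hee' : (e0 : ℝ) ≤ e1 * 2 ^ sh := by exact_mod_cast hee
  have hprod : 0 ≤ (1 + rho l1 w1 x) ^ n1 * (1 + rho l2 w2 y) ^ n2 * (1 + rho l3 w3 z) ^ n3 := by
    positivity
  have hs2 : (e0 : ℝ) * ((1 + rho l1 w1 x) ^ n1 * (1 + rho l2 w2 y) ^ n2 *
      (1 + rho l3 w3 z) ^ n3) ≤
      F K (n1 + 1) (n2 + 1) (n3 + 1) R (rho l1 w1 x) (rho l2 w2 y) (rho l3 w3 z) := by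
    push_cast at hFl
    have h2sh : (0 : ℝ) < 2 ^ sh := by positivity
    calc _ ≤ (e1 * 2 ^ sh : ℝ) * ((1 + rho l1 w1 x) ^ n1 * (1 + rho l2 w2 y) ^ n2 *
          (1 + rho l3 w3 z) ^ n3) := mul_le_mul_of_nonneg_right hee' hprod
      _ = 2 ^ sh * (e1 * ((1 + rho l1 w1 x) ^ n1 * (1 + rho l2 w2 y) ^ n2 *
          (1 + rho l3 w3 z) ^ n3)) := by ring
      _ ≤ 2 ^ sh * F K' (n1 + 1) (n2 + 1) (n3 + 1) Pl (rho l1 w1 x) (rho l2 w2 y) (rho l3 w3 z) :=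
          mul_le_mul_of_nonneg_left hs h2sh.le
      _ ≤ _ := hFl
  have hle2 : F K (n1 + 1) (n2 + 1) (n3 + 1) QB (rho l1 w1 x) (rho l2 w2 y) (rho l3 w3 z) ≤
      F K (n1 + 1) (n2 + 1) (n3 + 1) QA (rho l1 w1 x) (rho l2 w2 y) (rho l3 w3 z) := by
    linarith
  rw [rA3 _ _ _ r1 r2 r3, rB3 _ _ _ r1 r2 r3, kA3, kB3] at hle2
  have hWd' : (0 : ℝ) < Wd := by exact_mod_cast hWd
  have s1 : 0 < ((Wd : ℝ) + Wd * rho l1 w1 x) ^ n1 := by positivity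
  have s2 : 0 < ((Wd : ℝ) + Wd * rho l2 w2 y) ^ n2 := by positivity
  have s3 : 0 < ((Wd : ℝ) + Wd * rho l3 w3 z) ^ n3 := by positivity
  exact le_of_mul_le_mul_left (le_of_mul_le_mul_left (le_of_mul_le_mul_left hle2 s3) s2) s1

end TamC
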