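import Mathlib

/-!
# Packed polynomials (Kronecker substitution)

A polynomial in one variable with coefficients `< 2^K` is stored as the natural number which is its
value at `2^K`.  `dg K P m` is the coefficient (digit) number `m`.
-/

namespace TamC

open Finset

/-- digit `m` of `P` in base `2^K` -/
def dg (K P m : ℕ) : ℕ := P / 2 ^ (K * m) % 2 ^ K

lemma dg_lt (K P m : ℕ) : dg K P m < 2 ^ K := Nat.mod_lt _ (by positivity)

lemma sum_range_mul' {M : Type*} [AddCommMonoid M] (A B : ℕ) (f : ℕ → M) :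
    ∑ m ∈ range (A * B), f m = ∑ i ∈ range A, ∑ j ∈ range B, f (i * B + j) := by
  induction A with
  | zero => simp
  | succ A ih => rw [Nat.succ_mul, Finset.sum_range_add, ih, Finset.sum_range_succ]

lemma dg_zero' {K a : ℕ} (S : ℕ) (h : a < 2 ^ K) : dg K (a + 2 ^ K * S) 0 = a := by
  unfold dg
  rw [Nat.mul_zero, pow_zero, Nat.div_one, Nat.add_mul_mod_self_left, Nat.mod_eq_of_lt h]

lemma dg_succ' {K a : ℕ} (S m : ℕ) (h : a < 2 ^ K) : dg K (a + 2 ^ K * S) (m + 1) = dg K S m := by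
  unfold dg
  rw [Nat.mul_succ, pow_add, mul_comm (2 ^ (K * m)), ← Nat.div_div_eq_div_mul,
    Nat.add_mul_div_left _ _ (by positivity), Nat.div_eq_of_lt h, zero_add]

lemma sum_pack (K L : ℕ) (c : ℕ → ℕ) :
    ∑ m ∈ range (L + 1), c m * 2 ^ (K * m) =
      c 0 + 2 ^ K * ∑ m ∈ range L, c (m + 1) * 2 ^ (K * m) := by
  rw [Finset.sum_range_succ', add_comm, Finset.mul_sum]
  congr 1
  · simp
  · apply Finset.sum_congr rfl
    intro m _
    rw [Nat.mul_succ, pow_add]; ring

lemma dg_sum (K : ℕ) : ∀ (L : ℕ) (c : ℕ → ℕ), (∀ m < L, c m < 2 ^ K) → ∀ m < L,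
    dg K (∑ m ∈ range L, c m * 2 ^ (K * m)) m = c m := by
  intro L
  induction L with
  | zero => intro c _ m hm; omega
  | succ L ih =>
    intro c hc m hm
    rw [sum_pack]
    cases m with
    | zero => exact dg_zero' _ (hc 0 (by omega))
    | succ m =>
      rw [dg_succ' _ _ (hc 0 (by omega))]
      exact ih (fun m => c (m + 1)) (fun m hm => hc (m + 1) (by omega)) m (by omega)

lemma sum_lt (K : ℕ) : ∀ (L : ℕ) (c : ℕ → ℕ), (∀ m < L, c m < 2 ^ K) →
    ∑ m ∈ range L, c m * 2 ^ (K * m) < 2 ^ (K * L) := by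
  intro L
  induction L with
  | zero => intro c _; simp
  | succ L ih =>
    intro c hc
    rw [sum_pack]
    have h1 := ih (fun m => c (m + 1)) (fun m hm => hc (m + 1) (by omega))
    have h2 := hc 0 (by omega)
    rw [Nat.mul_succ, pow_add, mul_comm (2 ^ (K * L))]
    have h3 : 2 ^ K * (∑ m ∈ range L, c (m + 1) * 2 ^ (K * m) + 1) ≤ 2 ^ K * 2 ^ (K * L) :=
      Nat.mul_le_mul_left _ h1
    rw [Nat.mul_succ] at h3
    omega

lemma expand (K : ℕ) : ∀ (L P : ℕ), P < 2 ^ (K * L) →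
    P = ∑ m ∈ range L, dg K P m * 2 ^ (K * m) := by
  intro L
  induction L with
  | zero => intro P h; simp at h; simp [h]
  | succ L ih =>
    intro P h
    rw [sum_pack]
    have h1 : P / 2 ^ K < 2 ^ (K * L) := by
      rw [Nat.div_lt_iff_lt_mul (by positivity)]
      rw [Nat.mul_succ, pow_add] at h
      exact h
    have h2 := ih _ h1
    have h3 : ∀ m, dg K P (m + 1) = dg K (P / 2 ^ K) m := by
      intro m
      unfold dg
      rw [Nat.mul_succ, pow_add, mul_comm (2 ^ (K * m)), ← Nat.div_div_eq_div_mul]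
    have h4 : dg K P 0 = P % 2 ^ K := by unfold dg; simp
    rw [h4]
    simp only [h3]
    rw [← h2]
    exact (Nat.mod_add_div _ _).symm

lemma land_split {W a b : ℕ} (x y : ℕ) (ha : a < 2 ^ W) (hb : b < 2 ^ W) :
    (a + 2 ^ W * x) &&& (b + 2 ^ W * y) = (a &&& b) + 2 ^ W * (x &&& y) := by
  apply Nat.eq_of_testBit_eq
  intro i
  have hab : (a &&& b) < 2 ^ W := lt_of_le_of_lt Nat.and_le_left ha
  rw [Nat.testBit_and, add_comm a, add_comm b, add_comm (a &&& b),
    Nat.testBit_two_pow_mul_add _ ha, Nat.testBit_two_pow_mul_add _ hb,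
    Nat.testBit_two_pow_mul_add _ hab]
  split_ifs
  · rw [Nat.testBit_and]
  · rw [Nat.testBit_and]

lemma land_mask {J W : ℕ} (hJ : J ≤ W) : ∀ (H P : ℕ),
    P &&& (∑ h ∈ range H, (2 ^ J - 1) * 2 ^ (W * h)) =
      ∑ h ∈ range H, (P / 2 ^ (W * h) % 2 ^ J) * 2 ^ (W * h) := by
  intro H
  induction H with
  | zero => intro P; simp
  | succ H ih =>
    intro P
    rw [sum_pack W H (fun _ => 2 ^ J - 1), sum_pack W H (fun h => P / 2 ^ (W * h) % 2 ^ J)]
    have hJW : 2 ^ J ≤ 2 ^ W := Nat.pow_le_pow_right (by norm_num) hJ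
    have hpos : 0 < 2 ^ J := by positivity
    have h1 : 2 ^ J - 1 < 2 ^ W := by omega
    have h2 : P % 2 ^ W < 2 ^ W := Nat.mod_lt _ (by positivity)
    conv_lhs => rw [← Nat.mod_add_div P (2 ^ W)]
    rw [land_split _ _ h2 h1, ih]
    congr 1
    · rw [Nat.and_two_pow_sub_one_eq_mod, Nat.mul_zero, pow_zero, Nat.div_one]
      exact Nat.mod_mod_of_dvd _ (Nat.pow_dvd_pow _ hJ)
    · congr 1
      apply Finset.sum_congr rfl
      intro m _
      rw [Nat.mul_succ, pow_add, mul_comm (2 ^ (W * m)) (2 ^ W), ← Nat.div_div_eq_div_mul]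

/-- the mask selecting the blocks `0, b, 2b, …` of `s` digits -/
def mask (K s b H : ℕ) : ℕ := (2 ^ (K * s) - 1) * ((2 ^ (K * s * b * H) - 1) / (2 ^ (K * s * b) - 1))

lemma mask_eq {K s b : ℕ} (h : 0 < K * s * b) (H : ℕ) :
    mask K s b H = ∑ h ∈ range H, (2 ^ (K * s) - 1) * 2 ^ (K * s * b * h) := by
  unfold mask
  have h2 : 2 ≤ 2 ^ (K * s * b) := by
    calc 2 = 2 ^ 1 := by norm_num
      _ ≤ 2 ^ (K * s * b) := Nat.pow_le_pow_right (by norm_num) h
  rw [← Finset.mul_sum]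
  congr 1
  have h3 := Nat.geomSum_eq h2 H
  rw [← pow_mul] at h3
  rw [← h3]
  apply Finset.sum_congr rfl
  intro i _
  rw [← pow_mul]

/-- slice number `a` along an axis with stride `s` and length `b` -/
def sl (K s b H P a : ℕ) : ℕ := (P >>> (K * s * a)) &&& mask K s b H

lemma sl_eq {K s b : ℕ} (h : 0 < K * s * b) (H P a : ℕ) :
    sl K s b H P a = ∑ h ∈ range H, dg (K * s) P (h * b + a) * 2 ^ (K * s * b * h) := by
  unfold sl
  have hb : 1 ≤ b := by
    rcases Nat.eq_zero_or_pos b with hb | hb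
    · subst hb; simp at h
    · exact hb
  rw [mask_eq h, land_mask (Nat.le_mul_of_pos_right _ hb)]
  apply Finset.sum_congr rfl
  intro i _
  congr 1
  unfold dg
  rw [Nat.shiftRight_eq_div_pow, Nat.div_div_eq_div_mul, ← pow_add]
  congr 3
  ring

/-- the operation `Σ S_a (β Z)^a (γ + ε Z)^(b-1-a)` by Horner, in packed form -/
def lf (K s b H P β γ ε : ℕ) : ℕ → ℕ
  | 0 => sl K s b H P 0
  | j + 1 => lf K s b H P β γ ε j * γ + (lf K s b H P β γ ε j * ε) <<< (K * s) +
      (sl K s b H P (j + 1) * β ^ (j + 1)) <<< (K * s * (j + 1))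

lemma lf_eq (K s b H P β γ ε : ℕ) : ∀ j, lf K s b H P β γ ε j =
    ∑ a ∈ range (j + 1), sl K s b H P a * ((0 + β * 2 ^ (K * s)) ^ a *
      (γ + ε * 2 ^ (K * s)) ^ (j - a)) := by
  intro j
  induction j with
  | zero => simp [lf]
  | succ j ih =>
    rw [lf, Finset.sum_range_succ]
    have h1 : ∑ a ∈ range (j + 1), sl K s b H P a * ((0 + β * 2 ^ (K * s)) ^ a *
      (γ + ε * 2 ^ (K * s)) ^ (j + 1 - a)) = lf K s b H P β γ ε j * (γ + ε * 2 ^ (K * s)) := by
      rw [ih, Finset.sum_mul]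
      apply Finset.sum_congr rfl
      intro a ha
      rw [Finset.mem_range] at ha
      rw [show j + 1 - a = (j - a) + 1 by omega, pow_succ]
      ring
    rw [h1, Nat.shiftLeft_eq, Nat.shiftLeft_eq, Nat.sub_self, pow_zero, mul_one, zero_add,
      mul_pow, ← pow_mul]
    ring

/-- the operation `Σ S_a (1 + 2 Z)^a` by Horner, in packed form -/
def rg (K s b H P n : ℕ) : ℕ → ℕ
  | 0 => sl K s b H P n
  | j + 1 => sl K s b H P (n - (j + 1)) + rg K s b H P n j + (rg K s b H P n j) <<< (K * s + 1)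

lemma rg_eq (K s b H P n : ℕ) : ∀ j ≤ n, rg K s b H P n j =
    ∑ i ∈ range (j + 1), sl K s b H P (n - j + i) * (1 + 2 * 2 ^ (K * s)) ^ i := by
  intro j
  induction j with
  | zero => intro _; simp [rg]
  | succ j ih =>
    intro hj
    rw [rg, Finset.sum_range_succ', ih (by omega), Nat.shiftLeft_eq, pow_succ 2 (K * s)]
    simp only [Nat.add_zero, pow_zero, mul_one]
    have h1 : ∑ i ∈ range (j + 1), sl K s b H P (n - (j + 1) + (i + 1)) *
        (1 + 2 * 2 ^ (K * s)) ^ (i + 1) =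
        (∑ i ∈ range (j + 1), sl K s b H P (n - j + i) * (1 + 2 * 2 ^ (K * s)) ^ i) *
          (1 + 2 * 2 ^ (K * s)) := by
      rw [Finset.sum_mul]
      apply Finset.sum_congr rfl
      intro i _
      rw [show n - (j + 1) + (i + 1) = n - j + i by omega, pow_succ]
      ring
    rw [h1]
    ring

lemma rg_eq' (K s b H P n : ℕ) : rg K s b H P n n =
    ∑ a ∈ range (n + 1), sl K s b H P a * ((1 + 2 * 2 ^ (K * s)) ^ a *
      (1 + 0 * 2 ^ (K * s)) ^ (n - a)) := by
  rw [rg_eq K s b H P n n le_rfl]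
  simp

lemma and_shift (P M t : ℕ) : P &&& (M <<< t) = ((P >>> t) &&& M) <<< t := by
  apply Nat.eq_of_testBit_eq
  intro i
  rw [Nat.testBit_and, Nat.testBit_shiftLeft, Nat.testBit_shiftLeft, Nat.testBit_and,
    Nat.testBit_shiftRight]
  by_cases h : t ≤ i
  · rw [Nat.add_sub_cancel' h]
    simp [h]
  · simp [h]

/-- left half, economical form -/
def lfn (K s b H P : ℕ) : ℕ → ℕ
  | 0 => P &&& mask K s b H
  | j + 1 => lfn K s b H P j * (2 + 2 ^ (K * s)) + (P &&& (mask K s b H <<< (K * s * (j + 1))))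

lemma lfn_eq (K s b H P : ℕ) : ∀ j, lfn K s b H P j = lf K s b H P 1 2 1 j := by
  intro j
  induction j with
  | zero => simp [lfn, lf, sl]
  | succ j ih =>
    rw [lfn, lf, ih, and_shift, Nat.shiftLeft_eq (_ * 1), one_pow, mul_one, mul_one, mul_add]
    rfl

/-- right half, economical form -/
def rgn (K s b H P n : ℕ) : ℕ → ℕ
  | 0 => sl K s b H P n
  | j + 1 => sl K s b H P (n - (j + 1)) + rgn K s b H P n j * (1 + 2 ^ (K * s + 1))

lemma rgn_eq (K s b H P n : ℕ) : ∀ j, rgn K s b H P n j = rg K s b H P n j := by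
  intro j
  induction j with
  | zero => rfl
  | succ j ih =>
    rw [rgn, rg, ih, Nat.shiftLeft_eq]
    ring

end TamC
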