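import Pool.Agent.TamC.Full

/-!
# The three-point polynomial of a certificate

A certificate is a list of lists of integer polynomials `q` (lists of coefficients, in the
variable `y = 1 + u`).  `Gev` computes `Σ_k Q_k(u,v,t) Σ_{q ∈ L_k} q(u) q(v)` with pairs of
nonnegative parts.
-/

namespace TamC

/-- addition of polynomials -/
def addl : List ℤ → List ℤ → List ℤ
  | [], b => b
  | x :: a, [] => x :: a
  | x :: a, y :: b => (x + y) :: addl a b

/-- addition of matrices -/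
def addm : List (List ℤ) → List (List ℤ) → List (List ℤ)
  | [], b => b
  | x :: a, [] => x :: a
  | x :: a, y :: b => addl x y :: addm a b

/-- the matrix `Σ q ⊗ q` -/
def msum : List (List ℤ) → List (List ℤ)
  | [] => []
  | q :: L => addm (q.map (fun z => q.map (fun w => z * w))) (msum L)

section
variable {S : Type*} (A M : S → S → S) (c : ℕ → S)

def pm (a b : S × S) : S × S :=
  (A (M a.1 b.1) (M a.2 b.2), A (M a.1 b.2) (M a.2 b.1))
def pa (a b : S × S) : S × S := (A a.1 b.1, A a.2 b.2)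
def ps (a b : S × S) : S × S := (A a.1 b.2, A a.2 b.1)
def pc (z : ℤ) : S × S := (c z.toNat, c (-z).toNat)
def sm (y : S) (a : S × S) : S × S := (M y a.1, M y a.2)

def qv (y : S) : List ℤ → S × S
  | [] => (c 0, c 0)
  | z :: l => pa A (pc c z) (sm M y (qv y l))

/-- value of a matrix of coefficients -/
def e2 (y1 y2 : S) : List (List ℤ) → S × S
  | [] => (c 0, c 0)
  | q :: L => pa A (qv A M c y2 q) (sm M y1 (e2 y1 y2 L))

def Gev (w s : S × S) (y1 y2 : S) : S × S → S × S → List (List (List ℤ)) → S × S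
  | _, _, [] => (c 0, c 0)
  | a, b, L :: R => pa A (pm A M a (e2 A M c y1 y2 (msum L)))
      (Gev w s y1 y2 b (ps A (pa A (pm A M w b) (pm A M w b)) (pm A M s a)) R)

/-- `t - u v` -/
def wv (y1 y2 y3 : S) : S × S := (A y1 (A y2 y3), A (c 2) (M y1 y2))
/-- `1 - u^2` -/
def sv (y : S) : S × S := (M (c 2) y, M y y)

def Gf (L : List (List (List ℤ))) (y1 y2 y3 : S) : S × S :=
  Gev A M c (wv A M c y1 y2 y3) (pm A M (sv M c y1) (sv M c y2)) y1 y2 (c 1, c 0)
    (wv A M c y1 y2 y3) L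

/-- `β - (G(u,v,t) + G(u,t,v) + G(v,t,u))` -/
def Hf (L : List (List (List ℤ))) (β : ℤ) (y1 y2 y3 : S) : S × S :=
  ps A (pc c β) (pa A (Gf A M c L y1 y2 y3) (pa A (Gf A M c L y1 y3 y2) (Gf A M c L y2 y3 y1)))

end

section hom
variable {S T : Type*} (A M : S → S → S) (c : ℕ → S) (A' M' : T → T → T) (c' : ℕ → T) (f : S → T)

/-- componentwise -/
def mp (a : S × S) : T × T := (f a.1, f a.2)

variable {A M c A' M' c' f} (hA : ∀ a b, f (A a b) = A' (f a) (f b))
  (hM : ∀ a b, f (M a b) = M' (f a) (f b)) (hc : ∀ n, f (c n) = c' n)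

include hA hM in
lemma mp_pm (a b : S × S) : mp f (pm A M a b) = pm A' M' (mp f a) (mp f b) := by
  simp only [mp, pm, hA, hM]

include hA in
lemma mp_pa (a b : S × S) : mp f (pa A a b) = pa A' (mp f a) (mp f b) := by
  simp only [mp, pa, hA]

include hA in
lemma mp_ps (a b : S × S) : mp f (ps A a b) = ps A' (mp f a) (mp f b) := by
  simp only [mp, ps, hA]

include hc in
lemma mp_pc (z : ℤ) : mp f (pc c z) = pc c' z := by
  simp only [mp, pc, hc]

include hM in
lemma mp_sm (y : S) (a : S × S) : mp f (sm M y a) = sm M' (f y) (mp f a) := by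
  simp only [mp, sm, hM]

include hc in
lemma mp_cc (m n : ℕ) : mp f (c m, c n) = (c' m, c' n) := by
  simp only [mp, hc]

include hA hM hc in
lemma mp_qv (y : S) (l : List ℤ) : mp f (qv A M c y l) = qv A' M' c' (f y) l := by
  induction l with
  | nil => exact mp_cc hc 0 0
  | cons z l ih => rw [qv, qv, mp_pa hA, mp_pc hc, mp_sm hM, ih]

include hA hM hc in
lemma mp_e2 (y1 y2 : S) (L : List (List ℤ)) :
    mp f (e2 A M c y1 y2 L) = e2 A' M' c' (f y1) (f y2) L := by
  induction L with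
  | nil => exact mp_cc hc 0 0
  | cons q L ih =>
    rw [e2, e2, mp_pa hA, mp_qv hA hM hc, mp_sm hM, ih]

include hA hM hc in
lemma mp_Gev (w s : S × S) (y1 y2 : S) (L : List (List (List ℤ))) : ∀ a b : S × S,
    mp f (Gev A M c w s y1 y2 a b L) =
      Gev A' M' c' (mp f w) (mp f s) (f y1) (f y2) (mp f a) (mp f b) L := by
  induction L with
  | nil => intro a b; exact mp_cc hc 0 0
  | cons L R ih =>
    intro a b
    rw [Gev, Gev, mp_pa hA, mp_pm hA hM, mp_e2 hA hM hc, ih, mp_ps hA, mp_pa hA, mp_pm hA hM,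
      mp_pm hA hM]

include hA hM hc in
lemma mp_Gf (L : List (List (List ℤ))) (y1 y2 y3 : S) :
    mp f (Gf A M c L y1 y2 y3) = Gf A' M' c' L (f y1) (f y2) (f y3) := by
  have hw : mp f (wv A M c y1 y2 y3) = wv A' M' c' (f y1) (f y2) (f y3) := by
    simp only [mp, wv, hA, hM, hc]
  have hs : ∀ y, mp f (sv M c y) = sv M' c' (f y) := by
    intro y; simp only [mp, sv, hM, hc]
  unfold Gf
  rw [mp_Gev hA hM hc, hw, mp_pm hA hM, hs, hs, mp_cc hc]

include hA hM hc in
lemma mp_Hf (L : List (List (List ℤ))) (β : ℤ) (y1 y2 y3 : S) :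
    mp f (Hf A M c L β y1 y2 y3) = Hf A' M' c' L β (f y1) (f y2) (f y3) := by
  unfold Hf
  rw [mp_ps hA, mp_pc hc, mp_pa hA, mp_pa hA, mp_Gf hA hM hc, mp_Gf hA hM hc, mp_Gf hA hM hc]

end hom

/-! ### real values -/

/-- value of an integer polynomial -/
def qR (y : ℝ) : List ℤ → ℝ
  | [] => 0
  | z :: l => z + y * qR y l

def sR (y1 y2 : ℝ) : List (List ℤ) → ℝ
  | [] => 0
  | q :: L => qR y1 q * qR y2 q + sR y1 y2 L

def GeR (w s y1 y2 : ℝ) : ℝ → ℝ → List (List (List ℤ)) → ℝ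
  | _, _, [] => 0
  | a, b, L :: R => a * sR y1 y2 L + GeR w s y1 y2 b (2 * w * b - s * a) R

/-- `G(u,v,t)`, in the variables `y = 1 + u` -/
def GR (L : List (List (List ℤ))) (y1 y2 y3 : ℝ) : ℝ :=
  GeR (y1 + (y2 + y3) - (2 + y1 * y2)) ((2 * y1 - y1 * y1) * (2 * y2 - y2 * y2)) y1 y2 1
    (y1 + (y2 + y3) - (2 + y1 * y2)) L

/-- symmetrisation -/
def PsiR (L : List (List (List ℤ))) (y1 y2 y3 : ℝ) : ℝ :=
  GR L y1 y2 y3 + (GR L y1 y3 y2 + GR L y2 y3 y1)

/-- difference -/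
def df (a : ℝ × ℝ) : ℝ := a.1 - a.2

lemma df_pc (z : ℤ) : df (pc (fun n : ℕ => (n : ℝ)) z) = z := by
  unfold df pc
  have h : ((z.toNat : ℤ) - ((-z).toNat : ℤ)) = z := by omega
  have h2 : (((z.toNat : ℤ) - ((-z).toNat : ℤ) : ℤ) : ℝ) = (z : ℝ) := by rw [h]
  push_cast at h2
  exact h2

lemma df_pm (a b : ℝ × ℝ) : df (pm (fun a b : ℝ => a + b) (fun a b : ℝ => a * b) a b) = df a * df b := by
  simp only [df, pm]; ring
lemma df_pa (a b : ℝ × ℝ) : df (pa (fun a b : ℝ => a + b) a b) = df a + df b := by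
  simp only [df, pa]; ring
lemma df_ps (a b : ℝ × ℝ) : df (ps (fun a b : ℝ => a + b) a b) = df a - df b := by
  simp only [df, ps]; ring
lemma df_sm (y : ℝ) (a : ℝ × ℝ) : df (sm (fun a b : ℝ => a * b) y a) = y * df a := by
  simp only [df, sm]; ring

lemma df_qv (y : ℝ) (l : List ℤ) : df (qv (fun a b : ℝ => a + b) (fun a b : ℝ => a * b) (fun n : ℕ => (n : ℝ)) y l) = qR y l := by
  induction l with
  | nil => simp [qv, qR, df]
  | cons z l ih => rw [qv, qR, df_pa, df_pc, df_sm, ih]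

/-- value of a matrix of coefficients -/
def eR (y1 y2 : ℝ) : List (List ℤ) → ℝ
  | [] => 0
  | q :: L => qR y2 q + y1 * eR y1 y2 L

lemma qR_addl (y : ℝ) : ∀ a b : List ℤ, qR y (addl a b) = qR y a + qR y b
  | [], b => by simp [addl, qR]
  | x :: a, [] => by simp [addl, qR]
  | x :: a, z :: b => by
    rw [addl, qR, qR, qR, qR_addl y a b]
    push_cast
    ring

lemma eR_addm (y1 y2 : ℝ) : ∀ a b : List (List ℤ),
    eR y1 y2 (addm a b) = eR y1 y2 a + eR y1 y2 b
  | [], b => by simp [addm, eR]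
  | x :: a, [] => by simp [addm, eR]
  | x :: a, z :: b => by
    rw [addm, eR, eR, eR, eR_addm y1 y2 a b, qR_addl]
    ring

lemma qR_scl (y : ℝ) (z : ℤ) (q : List ℤ) : qR y (q.map (fun w => z * w)) = z * qR y q := by
  induction q with
  | nil => simp [qR]
  | cons w q ih =>
    rw [List.map_cons, qR, qR, ih]
    push_cast
    ring

lemma eR_outer (y1 y2 : ℝ) (q : List ℤ) (p : List ℤ) :
    eR y1 y2 (p.map (fun z => q.map (fun w => z * w))) = qR y1 p * qR y2 q := by
  induction p with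
  | nil => simp [eR, qR]
  | cons w p ih =>
    rw [List.map_cons, eR, ih, qR_scl, qR]
    ring

lemma eR_msum (y1 y2 : ℝ) (L : List (List ℤ)) : eR y1 y2 (msum L) = sR y1 y2 L := by
  induction L with
  | nil => simp [msum, eR, sR]
  | cons q L ih => rw [msum, eR_addm, eR_outer, ih, sR]

lemma df_e2 (y1 y2 : ℝ) (L : List (List ℤ)) :
    df (e2 (fun a b : ℝ => a + b) (fun a b : ℝ => a * b) (fun n : ℕ => (n : ℝ)) y1 y2 L) =
      eR y1 y2 L := by
  induction L with
  | nil => simp [e2, eR, df]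
  | cons q L ih => rw [e2, eR, df_pa, df_qv, df_sm, ih]

lemma df_Gev (w s : ℝ × ℝ) (y1 y2 : ℝ) (L : List (List (List ℤ))) : ∀ a b : ℝ × ℝ,
    df (Gev (fun a b : ℝ => a + b) (fun a b : ℝ => a * b) (fun n : ℕ => (n : ℝ)) w s y1 y2 a b L) = GeR (df w) (df s) y1 y2 (df a) (df b) L := by
  induction L with
  | nil => intro a b; simp [Gev, GeR, df]
  | cons L R ih =>
    intro a b
    rw [Gev, GeR, df_pa, df_pm, df_e2, eR_msum, ih, df_ps, df_pa, df_pm, df_pm]
    congr 2
    ring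

lemma df_Gf (L : List (List (List ℤ))) (y1 y2 y3 : ℝ) :
    df (Gf (fun a b : ℝ => a + b) (fun a b : ℝ => a * b) (fun n : ℕ => (n : ℝ)) L y1 y2 y3) = GR L y1 y2 y3 := by
  unfold Gf GR
  rw [df_Gev, df_pm]
  simp only [df, wv, sv]
  push_cast
  norm_num

lemma df_Hf (L : List (List (List ℤ))) (β : ℤ) (y1 y2 y3 : ℝ) :
    df (Hf (fun a b : ℝ => a + b) (fun a b : ℝ => a * b) (fun n : ℕ => (n : ℝ)) L β y1 y2 y3) = β - PsiR L y1 y2 y3 := by
  unfold Hf PsiR
  rw [df_ps, df_pc, df_pa, df_pa, df_Gf, df_Gf, df_Gf]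

end TamC
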