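import Pool.Agent.TamC.Chk

/-!
# Kronecker substitution for polynomials in three variables with natural coefficients
-/

namespace TamC

open Finset Polynomial

/-- evaluation of a polynomial in three variables -/
noncomputable def ev {T : Type*} [CommSemiring T] (x y z : T) :
    Polynomial (Polynomial (Polynomial ℕ)) →+* T :=
  eval₂RingHom (eval₂RingHom (eval₂RingHom (Nat.castRingHom T) z) y) x

/-- coefficients -/
noncomputable def co (p : Polynomial (Polynomial (Polynomial ℕ))) (i j k : ℕ) : ℕ :=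
  ((p.coeff i).coeff j).coeff k

/-- degree bounds -/
def Dg (b1 b2 b3 : ℕ) (p : Polynomial (Polynomial (Polynomial ℕ))) : Prop :=
  p.natDegree < b1 ∧ ∀ i, (p.coeff i).natDegree < b2 ∧ ∀ j, ((p.coeff i).coeff j).natDegree < b3

lemma ev_sum {T : Type*} [CommSemiring T] {b1 b2 b3 : ℕ}
    {p : Polynomial (Polynomial (Polynomial ℕ))} (hp : Dg b1 b2 b3 p) (x y z : T) :
    ev x y z p = ∑ i ∈ range b1, ∑ j ∈ range b2, ∑ k ∈ range b3,
      (co p i j k : T) * (x ^ i * y ^ j * z ^ k) := by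
  unfold ev
  rw [coe_eval₂RingHom, eval₂_eq_sum_range' _ hp.1]
  apply Finset.sum_congr rfl
  intro i _
  rw [coe_eval₂RingHom, eval₂_eq_sum_range' _ (hp.2 i).1, Finset.sum_mul]
  apply Finset.sum_congr rfl
  intro j _
  rw [coe_eval₂RingHom, eval₂_eq_sum_range' _ ((hp.2 i).2 j), Finset.sum_mul, Finset.sum_mul]
  apply Finset.sum_congr rfl
  intro k _
  simp only [co, Nat.coe_castRingHom]
  ring

lemma pos_eval {R : Type*} [CommSemiring R] (ψ : R →+* ℕ) (hψ : ∀ r : R, r ≠ 0 → 1 ≤ ψ r)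
    {x : ℕ} (_hx : 1 ≤ x) (q : Polynomial R) (hq : q ≠ 0) :
    x ^ q.natDegree ≤ eval₂ ψ x q := by
  rw [eval₂_eq_sum_range]
  have h1 : 1 ≤ ψ (q.coeff q.natDegree) := by
    apply hψ
    rw [coeff_natDegree]
    exact leadingCoeff_ne_zero.mpr hq
  calc x ^ q.natDegree ≤ ψ (q.coeff q.natDegree) * x ^ q.natDegree :=
        Nat.le_mul_of_pos_left _ h1
    _ ≤ _ := Finset.single_le_sum (f := fun i => ψ (q.coeff i) * x ^ i) (fun _ _ => Nat.zero_le _)
        (Finset.mem_range.mpr (Nat.lt_succ_self _))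

lemma pos_hom {R : Type*} [CommSemiring R] (ψ : R →+* ℕ) (hψ : ∀ r : R, r ≠ 0 → 1 ≤ ψ r)
    {x : ℕ} (hx : 1 ≤ x) (q : Polynomial R) (hq : q ≠ 0) : 1 ≤ eval₂RingHom ψ x q := by
  rw [coe_eval₂RingHom]
  exact le_trans (Nat.one_le_pow _ _ hx) (pos_eval ψ hψ hx q hq)

lemma coeff_le {R : Type*} [CommSemiring R] (ψ : R →+* ℕ) {x : ℕ} (hx : 1 ≤ x)
    (q : Polynomial R) (i : ℕ) : ψ (q.coeff i) ≤ eval₂RingHom ψ x q := by
  rw [coe_eval₂RingHom]
  by_cases hi : i ≤ q.natDegree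
  · rw [eval₂_eq_sum_range]
    calc ψ (q.coeff i) ≤ ψ (q.coeff i) * x ^ i := Nat.le_mul_of_pos_right _ (Nat.one_le_pow _ _ hx)
      _ ≤ _ := Finset.single_le_sum (f := fun i => ψ (q.coeff i) * x ^ i)
        (fun _ _ => Nat.zero_le _) (Finset.mem_range.mpr (by omega))
  · rw [coeff_eq_zero_of_natDegree_lt (by omega), map_zero]
    exact Nat.zero_le _

lemma natDegree_lt_of {R : Type*} [CommSemiring R] (ψ : R →+* ℕ) (hψ : ∀ r : R, r ≠ 0 → 1 ≤ ψ r)
    {x b : ℕ} (hx : 2 ≤ x) (hb : 0 < b) (q : Polynomial R) (h : eval₂RingHom ψ x q < x ^ b) :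
    q.natDegree < b := by
  by_cases hq : q = 0
  · subst hq; simpa using hb
  · have h1 := pos_eval ψ hψ (by omega : 1 ≤ x) q hq
    rw [coe_eval₂RingHom] at h
    exact (Nat.pow_lt_pow_iff_right (by omega : 1 < x)).mp (lt_of_le_of_lt h1 h)

lemma hψ0 : ∀ r : ℕ, r ≠ 0 → 1 ≤ (Nat.castRingHom ℕ) r := by
  intro r hr
  simp only [Nat.coe_castRingHom, Nat.cast_id]
  omega

lemma Dg_of {b1 b2 b3 T : ℕ} (hT : 2 ≤ T) (h1 : 0 < b1) (h2 : 0 < b2) (h3 : 0 < b3)
    {p : Polynomial (Polynomial (Polynomial ℕ))} (e1 : ev T 1 1 p < T ^ b1)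
    (e2 : ev 1 T 1 p < T ^ b2) (e3 : ev 1 1 T p < T ^ b3) : Dg b1 b2 b3 p := by
  have hT1 : 1 ≤ T := by omega
  have p0 : ∀ z : ℕ, 1 ≤ z → ∀ q : Polynomial ℕ, q ≠ 0 →
      1 ≤ eval₂RingHom (Nat.castRingHom ℕ) z q := fun z hz q hq =>
    pos_hom _ hψ0 hz q hq
  have p1 : ∀ y z : ℕ, 1 ≤ y → 1 ≤ z → ∀ q : Polynomial (Polynomial ℕ), q ≠ 0 →
      1 ≤ eval₂RingHom (eval₂RingHom (Nat.castRingHom ℕ) z) y q := fun y z hy hz q hq =>
    pos_hom _ (p0 z hz) hy q hq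
  have k1 := natDegree_lt_of (R := Polynomial (Polynomial ℕ))
    (eval₂RingHom (eval₂RingHom (Nat.castRingHom ℕ) 1) 1) (p1 1 1 le_rfl le_rfl) hT h1 p e1
  have k2 : ∀ i, (p.coeff i).natDegree < b2 := fun i =>
    natDegree_lt_of (R := Polynomial ℕ) (eval₂RingHom (Nat.castRingHom ℕ) 1) (p0 1 le_rfl) hT h2
      (p.coeff i) (lt_of_le_of_lt (coeff_le (R := Polynomial (Polynomial ℕ))
        (eval₂RingHom (eval₂RingHom (Nat.castRingHom ℕ) 1) T) (le_refl 1) p i) e2)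
  have k3 : ∀ i j, ((p.coeff i).coeff j).natDegree < b3 := fun i j =>
    natDegree_lt_of (R := ℕ) (Nat.castRingHom ℕ) hψ0 hT h3 ((p.coeff i).coeff j)
      (lt_of_le_of_lt ((coeff_le (R := Polynomial ℕ) (eval₂RingHom (Nat.castRingHom ℕ) T)
        (le_refl 1) (p.coeff i) j).trans (coeff_le (R := Polynomial (Polynomial ℕ))
        (eval₂RingHom (eval₂RingHom (Nat.castRingHom ℕ) T) 1) (le_refl 1) p i)) e3)
  exact ⟨k1, fun i => ⟨k2 i, k3 i⟩⟩

lemma co_le (p : Polynomial (Polynomial (Polynomial ℕ)))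
    (i j k : ℕ) : co p i j k ≤ ev 1 1 1 p := by
  have h1 := coeff_le (R := ℕ) (Nat.castRingHom ℕ) (le_refl 1) ((p.coeff i).coeff j) k
  have h2 := coeff_le (R := Polynomial ℕ) (eval₂RingHom (Nat.castRingHom ℕ) 1) (le_refl 1)
    (p.coeff i) j
  have h3 := coeff_le (R := Polynomial (Polynomial ℕ))
    (eval₂RingHom (eval₂RingHom (Nat.castRingHom ℕ) 1) 1) (le_refl 1) p i
  simp only [Nat.coe_castRingHom, Nat.cast_id] at h1
  exact (h1.trans h2).trans h3

/-- digits of the Kronecker substitution -/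
theorem kron {K b1 b2 b3 : ℕ} {p : Polynomial (Polynomial (Polynomial ℕ))}
    (h2 : 0 < b2) (h3 : 0 < b3) (hp : Dg b1 b2 b3 p) (h0 : ev 1 1 1 p < 2 ^ K) :
    ev (2 ^ (K * (b2 * b3))) (2 ^ (K * b3)) (2 ^ K) p < 2 ^ (K * (b1 * b2 * b3)) ∧
    (∀ m, dg K (ev (2 ^ (K * (b2 * b3))) (2 ^ (K * b3)) (2 ^ K) p) m ≤ ev 1 1 1 p) ∧
    ∀ x y z : ℝ, F K b1 b2 b3 (ev (2 ^ (K * (b2 * b3))) (2 ^ (K * b3)) (2 ^ K) p) x y z =
      ev x y z p := by
  set c : ℕ → ℕ := fun m => co p (m / b3 / b2) (m / b3 % b2) (m % b3) with hc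
  have hidx : ∀ i j k, j < b2 → k < b3 → c ((i * b2 + j) * b3 + k) = co p i j k := by
    intro i j k hj hk
    have e1 : ((i * b2 + j) * b3 + k) / b3 = i * b2 + j := by
      rw [mul_comm, Nat.mul_add_div h3, Nat.div_eq_of_lt hk, add_zero]
    have e2 : ((i * b2 + j) * b3 + k) % b3 = k := by
      rw [mul_comm, Nat.mul_add_mod, Nat.mod_eq_of_lt hk]
    have e3 : (i * b2 + j) / b2 = i := by
      rw [mul_comm, Nat.mul_add_div h2, Nat.div_eq_of_lt hj, add_zero]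
    have e4 : (i * b2 + j) % b2 = j := by
      rw [mul_comm, Nat.mul_add_mod, Nat.mod_eq_of_lt hj]
    simp only [hc, e1, e2, e3, e4]
  have hP : ev (2 ^ (K * (b2 * b3))) (2 ^ (K * b3)) (2 ^ K) p =
      ∑ m ∈ range (b1 * b2 * b3), c m * 2 ^ (K * m) := by
    rw [ev_sum hp, sum_range_mul', sum_range_mul']
    apply Finset.sum_congr rfl
    intro i _
    apply Finset.sum_congr rfl
    intro j hj
    apply Finset.sum_congr rfl
    intro k hk
    rw [Finset.mem_range] at hj hk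
    rw [hidx i j k hj hk, ← pow_mul, ← pow_mul, ← pow_mul, ← pow_add, ← pow_add, Nat.cast_id]
    congr 2
    ring
  have hcl : ∀ m, c m ≤ ev 1 1 1 p := fun m => co_le p _ _ _
  have hcl' : ∀ m < b1 * b2 * b3, c m < 2 ^ K := fun m _ => lt_of_le_of_lt (hcl m) h0
  have hlt := sum_lt K (b1 * b2 * b3) c hcl'
  have hd := dg_sum K (b1 * b2 * b3) c hcl'
  rw [← hP] at hlt hd
  refine ⟨hlt, fun m => ?_, fun x y z => ?_⟩
  · by_cases hm : m < b1 * b2 * b3
    · rw [hd m hm]; exact hcl m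
    · rw [dg_of_lt hlt (by omega)]; exact Nat.zero_le _
  · conv_rhs => rw [ev_sum hp]
    unfold F
    apply Finset.sum_congr rfl
    intro i hi
    apply Finset.sum_congr rfl
    intro j hj
    apply Finset.sum_congr rfl
    intro k hk
    rw [Finset.mem_range] at hi hj hk
    have hm : (i * b2 + j) * b3 + k < b1 * b2 * b3 := by
      have h1 : i * b2 + j + 1 ≤ b1 * b2 := by
        have : (i + 1) * b2 ≤ b1 * b2 := Nat.mul_le_mul_right _ hi
        rw [Nat.succ_mul] at this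
        omega
      have h2 : (i * b2 + j + 1) * b3 ≤ b1 * b2 * b3 := Nat.mul_le_mul_right _ h1
      rw [Nat.succ_mul (i * b2 + j)] at h2
      omega
    rw [hd _ hm, hidx i j k hj hk]

end TamC
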