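import Pool.Agent.TamC.Pair
import Pool.Agent.Tam.Defs

/-!
# The three-point bound on the sphere
-/

namespace TamC

open Finset Polynomial

/-- values in the natural numbers -/
def HN (L : List (List (List ℤ))) (β : ℤ) (y1 y2 y3 : ℕ) : ℕ × ℕ :=
  Hf Nat.add Nat.mul (fun n => n) L β y1 y2 y3

lemma ev_X {T : Type*} [CommSemiring T] (x y z : T) :
    ev x y z (X : Polynomial (Polynomial (Polynomial ℕ))) = x := by
  simp [ev]

lemma ev_CX {T : Type*} [CommSemiring T] (x y z : T) :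
    ev x y z (C X : Polynomial (Polynomial (Polynomial ℕ))) = y := by
  simp [ev]

lemma ev_CCX {T : Type*} [CommSemiring T] (x y z : T) :
    ev x y z (C (C X) : Polynomial (Polynomial (Polynomial ℕ))) = z := by
  simp [ev]

/-- the polynomial version -/
noncomputable def HP (L : List (List (List ℤ))) (β : ℤ)
    (y1 y2 y3 : Polynomial (Polynomial (Polynomial ℕ))) :
    Polynomial (Polynomial (Polynomial ℕ)) × Polynomial (Polynomial (Polynomial ℕ)) :=
  Hf (fun a b => a + b) (fun a b => a * b) (fun n => (n : Polynomial (Polynomial (Polynomial ℕ))))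
    L β y1 y2 y3

lemma HP_nat (L : List (List (List ℤ))) (β : ℤ)
    (y1 y2 y3 : Polynomial (Polynomial (Polynomial ℕ))) (a b c : ℕ) :
    HN L β (ev a b c y1) (ev a b c y2) (ev a b c y3) =
      (ev a b c (HP L β y1 y2 y3).1, ev a b c (HP L β y1 y2 y3).2) := by
  have h := mp_Hf (A := fun a b => a + b) (M := fun a b => a * b)
    (c := fun n => (n : Polynomial (Polynomial (Polynomial ℕ))))
    (A' := Nat.add) (M' := Nat.mul) (c' := fun n => n) (f := ev a b c)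
    (fun _ _ => map_add _ _ _) (fun _ _ => map_mul _ _ _) (fun n => by simp) L β y1 y2 y3
  exact h.symm

lemma HP_real (L : List (List (List ℤ))) (β : ℤ)
    (y1 y2 y3 : Polynomial (Polynomial (Polynomial ℕ))) (a b c : ℝ) :
    ev a b c (HP L β y1 y2 y3).1 - ev a b c (HP L β y1 y2 y3).2 =
      β - PsiR L (ev a b c y1) (ev a b c y2) (ev a b c y3) := by
  have h := mp_Hf (A := fun a b => a + b) (M := fun a b => a * b)
    (c := fun n => (n : Polynomial (Polynomial (Polynomial ℕ))))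
    (A' := fun a b : ℝ => a + b) (M' := fun a b : ℝ => a * b) (c' := fun n => (n : ℝ))
    (f := ev a b c)
    (fun _ _ => map_add _ _ _) (fun _ _ => map_mul _ _ _) (fun n => by simp) L β y1 y2 y3
  rw [← df_Hf, ← h]
  rfl

lemma mob_eq {D Wn Wd : ℕ} (hn : 0 < Wn) (hd : 0 < Wd) {y : ℝ} (h1 : 0 ≤ y)
    (h2 : y < (Wn : ℝ) / Wd) :
    0 ≤ y * 2 ^ D * Wd / Wn ∧ y * 2 ^ D * Wd / Wn < 2 ^ D ∧
    ((Wn : ℝ) * rho 0 (2 ^ D) (y * 2 ^ D * Wd / Wn)) /
      (Wd + Wd * rho 0 (2 ^ D) (y * 2 ^ D * Wd / Wn)) = y := by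
  have hn' : (0 : ℝ) < Wn := by exact_mod_cast hn
  have hd' : (0 : ℝ) < Wd := by exact_mod_cast hd
  have hD : (0 : ℝ) < 2 ^ D := by positivity
  have k1 : 0 ≤ y * 2 ^ D * Wd / Wn := by positivity
  have k2 : y * 2 ^ D * Wd / Wn < 2 ^ D := by
    rw [lt_div_iff₀ hd'] at h2
    rw [div_lt_iff₀ hn']
    nlinarith
  refine ⟨k1, k2, ?_⟩
  set x := y * 2 ^ D * Wd / Wn with hx
  have hyx : y * 2 ^ D * Wd = x * Wn := by rw [hx]; field_simp
  have k3 : (0 : ℝ) < 2 ^ D - x := by linarith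
  have k4 : rho 0 (2 ^ D) x * (2 ^ D - x) = x := by
    unfold rho
    push_cast
    rw [sub_zero, zero_add]
    exact div_mul_cancel₀ _ k3.ne'
  have k5 : 0 ≤ rho 0 (2 ^ D) x := by
    unfold rho
    push_cast
    rw [sub_zero, zero_add]
    positivity
  have k6 : (0 : ℝ) < Wd + Wd * rho 0 (2 ^ D) x := by positivity
  rw [div_eq_iff k6.ne']
  set r := rho 0 (2 ^ D) x with hr
  -- `Wn r = y (Wd + Wd r)`; multiply by `2^D (2^D - x)`
  have k7 : (1 + r) * (2 ^ D - x) = 2 ^ D := by linear_combination k4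
  have k8 : (Wn * r - y * (Wd + Wd * r)) * (2 ^ D * (2 ^ D - x)) = 0 := by
    have : (Wn * r - y * (Wd + Wd * r)) * (2 ^ D * (2 ^ D - x)) =
        Wn * 2 ^ D * (r * (2 ^ D - x)) - (y * 2 ^ D * Wd) * ((1 + r) * (2 ^ D - x)) := by ring
    rw [this, k4, k7, hyx]; ring
  rcases mul_eq_zero.mp k8 with h | h
  · linarith
  · exfalso
    have : (0 : ℝ) < 2 ^ D * (2 ^ D - x) := by positivity
    linarith

/-- the box lies outside of the region `det ≥ 0`; the coordinates are `u = A x / B - 1` -/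
def dskip (A B l1 w1 l2 w2 l3 w3 : ℕ) : Bool :=
  decide ((2 * B : ℤ) ^ 3 + 2 * (A * (2 * l1 + w1) - 2 * B) * (A * (2 * l2 + w2) - 2 * B) *
      (A * (2 * l3 + w3) - 2 * B) - (2 * B) * ((A * (2 * l1 + w1) - 2 * B) ^ 2 +
      (A * (2 * l2 + w2) - 2 * B) ^ 2 + (A * (2 * l3 + w3) - 2 * B) ^ 2) +
    |2 * ((A * (2 * l2 + w2) - 2 * B : ℤ) * (A * (2 * l3 + w3) - 2 * B)) -
      2 * (2 * B) * (A * (2 * l1 + w1) - 2 * B)| * (A * w1) +
    |2 * ((A * (2 * l1 + w1) - 2 * B : ℤ) * (A * (2 * l3 + w3) - 2 * B)) -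
      2 * (2 * B) * (A * (2 * l2 + w2) - 2 * B)| * (A * w2) +
    |2 * ((A * (2 * l1 + w1) - 2 * B : ℤ) * (A * (2 * l2 + w2) - 2 * B)) -
      2 * (2 * B) * (A * (2 * l3 + w3) - 2 * B)| * (A * w3) +
    2 * (|(A * (2 * l3 + w3) - 2 * B : ℤ)| * ((A * w1) * (A * w2)) +
      |(A * (2 * l1 + w1) - 2 * B : ℤ)| * ((A * w2) * (A * w3)) +
      |(A * (2 * l2 + w2) - 2 * B : ℤ)| * ((A * w1) * (A * w3))) +
    2 * ((A * w1) * (A * w2) * (A * w3)) < 0)

lemma abs_term {X p h : ℝ} (hp : |p| ≤ h) : X * p ≤ |X| * h := by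
  calc X * p ≤ |X * p| := le_abs_self _
    _ = |X| * |p| := abs_mul _ _
    _ ≤ _ := mul_le_mul_of_nonneg_left hp (abs_nonneg _)

lemma det_ub {d a b c p q r hp hq hr : ℝ} (hd : 0 ≤ d) (h1 : |p| ≤ hp) (h2 : |q| ≤ hq)
    (h3 : |r| ≤ hr) :
    d ^ 3 + 2 * (a + p) * (b + q) * (c + r) - d * ((a + p) ^ 2 + (b + q) ^ 2 + (c + r) ^ 2) ≤
    d ^ 3 + 2 * a * b * c - d * (a ^ 2 + b ^ 2 + c ^ 2) + |2 * (b * c) - 2 * d * a| * hp +
      |2 * (a * c) - 2 * d * b| * hq + |2 * (a * b) - 2 * d * c| * hr +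
      2 * (|c| * (hp * hq) + |a| * (hq * hr) + |b| * (hp * hr)) + 2 * (hp * hq * hr) := by
  have k1 := abs_term (X := 2 * (b * c) - 2 * d * a) h1
  have k2 := abs_term (X := 2 * (a * c) - 2 * d * b) h2
  have k3 := abs_term (X := 2 * (a * b) - 2 * d * c) h3
  have a1 : 0 ≤ hp := (abs_nonneg _).trans h1
  have a2 : 0 ≤ hq := (abs_nonneg _).trans h2
  have a3 : 0 ≤ hr := (abs_nonneg _).trans h3
  have pq : |p * q| ≤ hp * hq := by rw [abs_mul]; exact mul_le_mul h1 h2 (abs_nonneg _) a1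
  have qr : |q * r| ≤ hq * hr := by rw [abs_mul]; exact mul_le_mul h2 h3 (abs_nonneg _) a2
  have pr : |p * r| ≤ hp * hr := by rw [abs_mul]; exact mul_le_mul h1 h3 (abs_nonneg _) a1
  have pqr : |p * q * r| ≤ hp * hq * hr := by
    rw [abs_mul]; exact mul_le_mul pq h3 (abs_nonneg _) (mul_nonneg a1 a2)
  have k4 := abs_term (X := c) pq
  have k5 := abs_term (X := a) qr
  have k6 := abs_term (X := b) pr
  have k7 := (le_abs_self (p * q * r)).trans pqr
  have k8 : 0 ≤ d * (p ^ 2 + q ^ 2 + r ^ 2) := by positivity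
  nlinarith

lemma dskip_sound {A B : ℕ} (hB : 0 < B) {l1 w1 l2 w2 l3 w3 : ℕ}
    (h : dskip A B l1 w1 l2 w2 l3 w3 = true) {x y z : ℝ} (x1 : (l1 : ℝ) ≤ x) (x2 : x < l1 + w1)
    (y1 : (l2 : ℝ) ≤ y) (y2 : y < l2 + w2) (z1 : (l3 : ℝ) ≤ z) (z2 : z < l3 + w3) :
    ¬ 0 ≤ 1 + 2 * (A * x / B - 1) * (A * y / B - 1) * (A * z / B - 1) - (A * x / B - 1) ^ 2 -
      (A * y / B - 1) ^ 2 - (A * z / B - 1) ^ 2 := by
  unfold dskip at h
  rw [decide_eq_true_eq] at h
  have hB' : (0 : ℝ) < B := by exact_mod_cast hB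
  have hA' : (0 : ℝ) ≤ A := Nat.cast_nonneg _
  have hcast := (Int.cast_lt (R := ℝ)).mpr h
  push_cast at hcast
  have hh : ∀ (l w : ℕ) (x : ℝ), (l : ℝ) ≤ x → x < l + w →
      |2 * A * x - A * (2 * l + w)| ≤ A * w := by
    intro l w x h1 h2
    rw [show 2 * (A : ℝ) * x - A * (2 * l + w) = A * (2 * x - (2 * l + w)) by ring, abs_mul,
      abs_of_nonneg hA']
    apply mul_le_mul_of_nonneg_left _ hA'
    rw [abs_le]
    constructor <;> linarith
  have key := det_ub (d := 2 * (B : ℝ)) (a := A * (2 * l1 + w1) - 2 * B)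
    (b := A * (2 * l2 + w2) - 2 * B) (c := A * (2 * l3 + w3) - 2 * B) (by positivity)
    (hh l1 w1 x x1 x2) (hh l2 w2 y y1 y2) (hh l3 w3 z z1 z2)
  have e1 : ∀ (l w : ℕ) (x : ℝ), (A : ℝ) * (2 * l + w) - 2 * B + (2 * A * x - A * (2 * l + w)) =
      2 * B * (A * x / B - 1) := by
    intro l w x
    field_simp
    ring
  rw [e1, e1, e1] at key
  intro hdet
  have hpos : 0 ≤ (2 * (B : ℝ)) ^ 3 * (1 + 2 * (A * x / B - 1) * (A * y / B - 1) *
      (A * z / B - 1) - (A * x / B - 1) ^ 2 - (A * y / B - 1) ^ 2 - (A * z / B - 1) ^ 2) := by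
    positivity
  nlinarith

theorem tri_bound {L : List (List (List ℤ))} {β : ℤ} {K n g T M Wn Wd e0 D K' sh g0 e1 Pl : ℕ}
    {t : Tr} (hn : 0 < Wn) (hd : 0 < Wd)
    (h : root K n n n T M Wn Wd e0 (fun a b c => HN L β a b c) K' sh g0 e1 Pl = true)
    (hp : parOk K' n n n g = true)
    (hc : chk K' n n n g (dskip Wn (Wd * 2 ^ D)) t Pl e1 0 (2 ^ D) 0 (2 ^ D) 0 (2 ^ D) = true)
    {y1 y2 y3 : ℝ} (h1 : 0 ≤ y1) (h12 : y1 ≤ y2)
    (h23 : y2 ≤ y3) (h3 : y3 < (Wn : ℝ) / Wd)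
    (hdet : 0 ≤ 1 + 2 * (y1 - 1) * (y2 - 1) * (y3 - 1) - (y1 - 1) ^ 2 - (y2 - 1) ^ 2 -
      (y3 - 1) ^ 2) : PsiR L y1 y2 y3 ≤ β := by
  obtain ⟨a1, a2, a3⟩ := mob_eq (D := D) hn hd h1 (by linarith : y1 < (Wn : ℝ) / Wd)
  obtain ⟨b1, b2, b3⟩ := mob_eq (D := D) hn hd (h1.trans h12) (by linarith : y2 < (Wn : ℝ) / Wd)
  obtain ⟨c1, c2, c3⟩ := mob_eq (D := D) hn hd ((h1.trans h12).trans h23) h3
  have hn' : (0 : ℝ) < Wn := by exact_mod_cast hn
  have hWB : 0 < Wd * 2 ^ D := by positivity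
  have hWd' : (0 : ℝ) < Wd := by exact_mod_cast hd
  have e : ∀ y : ℝ, (Wn : ℝ) * (y * 2 ^ D * Wd / Wn) / ((Wd * 2 ^ D : ℕ) : ℝ) - 1 = y - 1 := by
    intro y
    push_cast
    field_simp
  have key := full_sound
    (Good := fun x y z => 0 ≤ 1 + 2 * (Wn * x / ((Wd * 2 ^ D : ℕ) : ℝ) - 1) *
      (Wn * y / ((Wd * 2 ^ D : ℕ) : ℝ) - 1) * (Wn * z / ((Wd * 2 ^ D : ℕ) : ℝ) - 1) -
      (Wn * x / ((Wd * 2 ^ D : ℕ) : ℝ) - 1) ^ 2 - (Wn * y / ((Wd * 2 ^ D : ℕ) : ℝ) - 1) ^ 2 -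
      (Wn * z / ((Wd * 2 ^ D : ℕ) : ℝ) - 1) ^ 2)
    (fun _ _ _ _ _ _ hs x y z a1 a2 b1 b2 c1 c2 => dskip_sound hWB hs a1 a2 b1 b2 c1 c2)
    (HP L β X (C X) (C (C X))).1 (HP L β X (C X) (C (C X))).2
    (fun a b c => by
      have := HP_nat L β X (C X) (C (C X)) a b c
      rw [ev_X, ev_CX, ev_CCX] at this
      exact this) h hp hc
    (x := y1 * 2 ^ D * Wd / Wn) (y := y2 * 2 ^ D * Wd / Wn) (z := y3 * 2 ^ D * Wd / Wn)
    (by push_cast; exact a1) (by push_cast; linarith) (by push_cast; exact b1)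
    (by push_cast; linarith) (by push_cast; exact c1) (by push_cast; linarith)
    (by gcongr) (by gcongr) (by simp only [e]; exact hdet)
  rw [a3, b3, c3] at key
  have k2 := HP_real L β X (C X) (C (C X)) y1 y2 y3
  rw [ev_X, ev_CX, ev_CCX] at k2
  linarith

theorem pair_bound {L : List (List (List ℤ))} {α : ℤ} {K n g T M Wn Wd e0 D K' sh g0 e1 Pl : ℕ}
    {t : Tr} (hn : 0 < Wn) (hd : 0 < Wd)
    (h : root K n 0 0 T M Wn Wd e0 (fun a _ _ => HN L α a a 2) K' sh g0 e1 Pl = true)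
    (hp : parOk K' n 0 0 g = true)
    (hc : chk K' n 0 0 g (fun _ _ _ _ _ _ => false) t Pl e1
      0 (2 ^ D) (2 ^ D) 1 (2 ^ D) 1 = true) {y : ℝ} (h1 : 0 ≤ y) (h3 : y < (Wn : ℝ) / Wd) : PsiR L y y 2 ≤ α := by
  obtain ⟨a1, a2, a3⟩ := mob_eq (D := D) hn hd h1 h3
  have e2 : ∀ a b c : ℕ, ev a b c (2 : Polynomial (Polynomial (Polynomial ℕ))) = 2 :=
    fun a b c => map_ofNat _ 2
  have key := full_sound (Good := fun _ _ _ => True) (fun _ _ _ _ _ _ hs => by simp at hs)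
    (HP L α X X 2).1 (HP L α X X 2).2
    (fun a b c => by
      have := HP_nat L α X X 2 a b c
      rw [ev_X, e2] at this
      exact this) h hp hc
    (x := y * 2 ^ D * Wd / Wn) (y := 2 ^ D) (z := 2 ^ D)
    (by push_cast; exact a1) (by push_cast; linarith) (by push_cast; exact le_rfl)
    (by push_cast; linarith) (by push_cast; exact le_rfl) (by push_cast; linarith)
    (by linarith) le_rfl trivial
  rw [a3] at key
  have k2 := HP_real L α X X 2 y
    ((Wn * rho (2 ^ D) 1 (2 ^ D)) / (Wd + Wd * rho (2 ^ D) 1 (2 ^ D)))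
    ((Wn * rho (2 ^ D) 1 (2 ^ D)) / (Wd + Wd * rho (2 ^ D) 1 (2 ^ D)))
  rw [ev_X, map_ofNat] at k2
  linarith

/-! ### symmetry -/

lemma sR_comm (y1 y2 : ℝ) (L : List (List ℤ)) : sR y1 y2 L = sR y2 y1 L := by
  induction L with
  | nil => rfl
  | cons q L ih => rw [sR, sR, ih]; ring

lemma GeR_comm (w s y1 y2 : ℝ) (L : List (List (List ℤ))) : ∀ a b : ℝ,
    GeR w s y1 y2 a b L = GeR w s y2 y1 a b L := by
  induction L with
  | nil => intro a b; rfl
  | cons L R ih => intro a b; rw [GeR, GeR, ih, sR_comm]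

lemma GR_comm (L : List (List (List ℤ))) (y1 y2 y3 : ℝ) : GR L y1 y2 y3 = GR L y2 y1 y3 := by
  unfold GR
  rw [GeR_comm]
  congr 1 <;> ring

lemma Psi_12 (L : List (List (List ℤ))) (y1 y2 y3 : ℝ) :
    PsiR L y1 y2 y3 = PsiR L y2 y1 y3 := by
  unfold PsiR
  rw [GR_comm L y1 y2 y3]
  ring

lemma Psi_23 (L : List (List (List ℤ))) (y1 y2 y3 : ℝ) :
    PsiR L y1 y2 y3 = PsiR L y1 y3 y2 := by
  unfold PsiR
  rw [GR_comm L y2 y3 y1]
  ring

/-- Gram determinant, in the variables `y = 1 + u` -/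
def dety (y1 y2 y3 : ℝ) : ℝ :=
  1 + 2 * (y1 - 1) * (y2 - 1) * (y3 - 1) - (y1 - 1) ^ 2 - (y2 - 1) ^ 2 - (y3 - 1) ^ 2

lemma Psi_sorted {L : List (List (List ℤ))} {β b : ℝ}
    (h : ∀ y1 y2 y3 : ℝ, 0 ≤ y1 → y1 ≤ y2 → y2 ≤ y3 → y3 < b → 0 ≤ dety y1 y2 y3 →
      PsiR L y1 y2 y3 ≤ β)
    {y1 y2 y3 : ℝ} (h1 : 0 ≤ y1) (h2 : 0 ≤ y2) (h3 : 0 ≤ y3) (g1 : y1 < b) (g2 : y2 < b)
    (g3 : y3 < b) (hd : 0 ≤ dety y1 y2 y3) : PsiR L y1 y2 y3 ≤ β := by
  have e : ∀ a b c d e f : ℝ, dety a b c = dety d e f → 0 ≤ dety a b c → 0 ≤ dety d e f := by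
    intro a b c d e f h1 h2; rw [← h1]; exact h2
  rcases le_total y1 y2 with a | a <;> rcases le_total y2 y3 with c | c <;>
    rcases le_total y1 y3 with d | d
  · exact h _ _ _ h1 a c g3 hd
  · exact h _ _ _ h1 a c g3 hd
  · rw [Psi_23]; exact h _ _ _ h1 d c g2 (e _ _ _ _ _ _ (by unfold dety; ring) hd)
  · rw [Psi_23, Psi_12]; exact h _ _ _ h3 d a g2 (e _ _ _ _ _ _ (by unfold dety; ring) hd)
  · rw [Psi_12]; exact h _ _ _ h2 a d g3 (e _ _ _ _ _ _ (by unfold dety; ring) hd)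
  · rw [Psi_12, Psi_23]; exact h _ _ _ h2 c d g1 (e _ _ _ _ _ _ (by unfold dety; ring) hd)
  · rw [Psi_23, Psi_12, Psi_23]
    exact h _ _ _ h3 c a g1 (e _ _ _ _ _ _ (by unfold dety; ring) hd)
  · rw [Psi_23, Psi_12, Psi_23]
    exact h _ _ _ h3 c a g1 (e _ _ _ _ _ _ (by unfold dety; ring) hd)

/-! ### positivity -/

open ComplexConjugate in
lemma inner_pos {ι : Type*} (X : Finset ι) (ζ : ι → ℂ) (r : ι → ℝ) (k : ℕ) :
    0 ≤ ∑ x ∈ X, ∑ y ∈ X, ((ζ x * conj (ζ y)) ^ k).re * (r x * r y) := by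
  have h : ((∑ x ∈ X, (r x : ℂ) * ζ x ^ k) * conj (∑ x ∈ X, (r x : ℂ) * ζ x ^ k)).re =
      ∑ x ∈ X, ∑ y ∈ X, ((ζ x * conj (ζ y)) ^ k).re * (r x * r y) := by
    rw [map_sum, Finset.sum_mul_sum, Complex.re_sum]
    apply Finset.sum_congr rfl
    intro x _
    rw [Complex.re_sum]
    apply Finset.sum_congr rfl
    intro y _
    rw [map_mul, map_pow, Complex.conj_ofReal]
    have : (r x : ℂ) * ζ x ^ k * ((r y : ℂ) * conj (ζ y) ^ k) =
        ((r x * r y : ℝ) : ℂ) * (ζ x * conj (ζ y)) ^ k := by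
      push_cast
      rw [mul_pow]; ring
    rw [this, Complex.re_ofReal_mul]
    ring
  rw [← h, Complex.mul_conj, Complex.ofReal_re]
  exact Complex.normSq_nonneg _

open ComplexConjugate in
lemma sR_pos {ι : Type*} (X : Finset ι) (ζ : ι → ℂ) (r : ι → ℝ) (k : ℕ) (L : List (List ℤ)) :
    0 ≤ ∑ x ∈ X, ∑ y ∈ X, ((ζ x * conj (ζ y)) ^ k).re * sR (r x) (r y) L := by
  induction L with
  | nil => simp [sR]
  | cons q L ih =>
    simp only [sR, mul_add, Finset.sum_add_distrib]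
    exact add_nonneg (inner_pos X ζ (fun x => qR (r x) q) k) ih

lemma re_step (Z : ℂ) (k : ℕ) :
    2 * Z.re * (Z ^ (k + 1)).re - Complex.normSq Z * (Z ^ k).re = (Z ^ (k + 2)).re := by
  have h : Z ^ (k + 2) = Z ^ k * Z * Z := by ring
  have h' : Z ^ (k + 1) = Z ^ k * Z := by ring
  rw [h, h', Complex.normSq_apply]
  simp only [Complex.mul_re, Complex.mul_im]
  ring

open ComplexConjugate in
lemma GeR_pos {ι : Type*} (X : Finset ι) (ζ : ι → ℂ) (r : ι → ℝ) (L : List (List (List ℤ))) :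
    ∀ k : ℕ, 0 ≤ ∑ x ∈ X, ∑ y ∈ X, GeR (ζ x * conj (ζ y)).re (Complex.normSq (ζ x * conj (ζ y)))
      (r x) (r y) ((ζ x * conj (ζ y)) ^ k).re ((ζ x * conj (ζ y)) ^ (k + 1)).re L := by
  induction L with
  | nil => intro k; simp [GeR]
  | cons L R ih =>
    intro k
    simp only [GeR, Finset.sum_add_distrib]
    refine add_nonneg (sR_pos X ζ r k L) ?_
    have h := ih (k + 1)
    simpa only [re_step] using h

lemma exists_basis (e : Tam.V) (he : ‖e‖ = 1) :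
    ∃ b : OrthonormalBasis (Fin 3) ℝ Tam.V, b 0 = e := by
  have hv : Orthonormal ℝ (({(0 : Fin 3)} : Set (Fin 3)).domRestrict (fun _ : Fin 3 => e)) := by
    constructor
    · intro i; exact he
    · intro i j hij
      exact absurd (Subsingleton.elim i j) hij
  obtain ⟨b, hb⟩ := hv.exists_orthonormalBasis_extension_of_card_eq (by simp)
  exact ⟨b, hb 0 (by simp)⟩

lemma GR_pos (L : List (List (List ℤ))) (X : Finset Tam.V) (hX : ∀ x ∈ X, ‖x‖ = 1)
    (e : Tam.V) (he : ‖e‖ = 1) :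
    0 ≤ ∑ x ∈ X, ∑ y ∈ X, GR L (1 + inner ℝ x e) (1 + inner ℝ y e) (1 + inner ℝ x y) := by
  obtain ⟨b, hb⟩ := exists_basis e he
  set ζ : Tam.V → ℂ := fun x => ⟨inner ℝ x (b 1), inner ℝ x (b 2)⟩ with hζ
  have hexp : ∀ x y : Tam.V, inner ℝ x y = inner ℝ x e * inner ℝ y e +
      (inner ℝ x (b 1) * inner ℝ y (b 1) + inner ℝ x (b 2) * inner ℝ y (b 2)) := by
    intro x y
    have h := b.sum_inner_mul_inner x y
    rw [Fin.sum_univ_three, hb] at h
    rw [← h, real_inner_comm y e, real_inner_comm y (b 1), real_inner_comm y (b 2)]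
    ring
  have h := GeR_pos X ζ (fun x => 1 + inner ℝ x e) L 0
  refine le_of_le_of_eq h ?_
  apply Finset.sum_congr rfl
  intro x hx
  apply Finset.sum_congr rfl
  intro y hy
  have hxx : inner ℝ x x = (1 : ℝ) := by rw [real_inner_self_eq_norm_sq, hX x hx]; norm_num
  have hyy : inner ℝ y y = (1 : ℝ) := by rw [real_inner_self_eq_norm_sq, hX y hy]; norm_num
  have e1 := hexp x x
  have e2 := hexp y y
  have e3 := hexp x y
  rw [hxx] at e1
  rw [hyy] at e2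
  unfold GR
  have w1 : (ζ x * (starRingEnd ℂ) (ζ y)).re =
      1 + inner ℝ x e + (1 + inner ℝ y e + (1 + inner ℝ x y)) -
        (2 + (1 + inner ℝ x e) * (1 + inner ℝ y e)) := by
    rw [Complex.mul_re, Complex.conj_re, Complex.conj_im, e3]
    simp only [hζ]
    ring
  have w2 : Complex.normSq (ζ x * (starRingEnd ℂ) (ζ y)) =
      (2 * (1 + inner ℝ x e) - (1 + inner ℝ x e) * (1 + inner ℝ x e)) *
        (2 * (1 + inner ℝ y e) - (1 + inner ℝ y e) * (1 + inner ℝ y e)) := by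
    rw [map_mul, Complex.normSq_conj, Complex.normSq_apply, Complex.normSq_apply]
    simp only [hζ]
    have f1 : inner ℝ x (b 1) * inner ℝ x (b 1) + inner ℝ x (b 2) * inner ℝ x (b 2) =
        2 * (1 + inner ℝ x e) - (1 + inner ℝ x e) * (1 + inner ℝ x e) := by
      linear_combination (-1 : ℝ) * e1
    have f2 : inner ℝ y (b 1) * inner ℝ y (b 1) + inner ℝ y (b 2) * inner ℝ y (b 2) =
        2 * (1 + inner ℝ y e) - (1 + inner ℝ y e) * (1 + inner ℝ y e) := by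
      linear_combination (-1 : ℝ) * e2
    rw [f1, f2]
  rw [w2, zero_add, pow_zero, pow_one, w1, Complex.one_re]

/-- the Gram determinant of three unit vectors is nonnegative -/
lemma gram {x y e : Tam.V} (hx : ‖x‖ = 1) (hy : ‖y‖ = 1) (he : ‖e‖ = 1) :
    0 ≤ dety (1 + inner ℝ x e) (1 + inner ℝ y e) (1 + inner ℝ x y) := by
  obtain ⟨b, hb⟩ := exists_basis e he
  have hexp : ∀ x y : Tam.V, inner ℝ x y = inner ℝ x e * inner ℝ y e +
      (inner ℝ x (b 1) * inner ℝ y (b 1) + inner ℝ x (b 2) * inner ℝ y (b 2)) := by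
    intro x y
    have h := b.sum_inner_mul_inner x y
    rw [Fin.sum_univ_three, hb] at h
    rw [← h, real_inner_comm y e, real_inner_comm y (b 1), real_inner_comm y (b 2)]
    ring
  have hxx : inner ℝ x x = (1 : ℝ) := by rw [real_inner_self_eq_norm_sq, hx]; norm_num
  have hyy : inner ℝ y y = (1 : ℝ) := by rw [real_inner_self_eq_norm_sq, hy]; norm_num
  have e1 := hexp x x
  have e2 := hexp y y
  have e3 := hexp x y
  rw [hxx] at e1
  rw [hyy] at e2
  unfold dety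
  have : 1 + 2 * (1 + inner ℝ x e - 1) * (1 + inner ℝ y e - 1) * (1 + inner ℝ x y - 1) -
      (1 + inner ℝ x e - 1) ^ 2 - (1 + inner ℝ y e - 1) ^ 2 - (1 + inner ℝ x y - 1) ^ 2 =
      (inner ℝ x (b 1) * inner ℝ y (b 2) - inner ℝ x (b 2) * inner ℝ y (b 1)) ^ 2 := by
    rw [e3]
    have f1 : inner ℝ x e ^ 2 = 1 - (inner ℝ x (b 1) ^ 2 + inner ℝ x (b 2) ^ 2) := by
      linear_combination -e1
    have f2 : inner ℝ y e ^ 2 = 1 - (inner ℝ y (b 1) ^ 2 + inner ℝ y (b 2) ^ 2) := by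
      linear_combination -e2
    linear_combination (-(1 : ℝ) + inner ℝ y e ^ 2) * f1 - (inner ℝ x (b 1) ^ 2 + inner ℝ x (b 2) ^ 2) * f2
  rw [this]
  positivity

/-- the three-point inequality -/
theorem three_point {L : List (List (List ℤ))} {β α γ s : ℝ} {X : Finset Tam.V}
    (hX : ∀ x ∈ X, ‖x‖ = 1) (hs : ∀ x ∈ X, ∀ y ∈ X, x ≠ y → inner ℝ x y ≤ s)
    (hT : ∀ u v t : ℝ, -1 ≤ u → -1 ≤ v → -1 ≤ t → u ≤ s → v ≤ s → t ≤ s →
      0 ≤ dety (1 + u) (1 + v) (1 + t) → PsiR L (1 + u) (1 + v) (1 + t) ≤ β)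
    (hP : ∀ u : ℝ, -1 ≤ u → u ≤ s → PsiR L (1 + u) (1 + u) 2 ≤ α)
    (hγ : PsiR L 2 2 2 = γ) :
    0 ≤ β * (X.card : ℝ) ^ 3 + 3 * (α - β) * (X.card : ℝ) ^ 2 + (γ - 3 * α + 2 * β) * X.card := by
  classical
  have hsum : 0 ≤ ∑ e ∈ X, ∑ x ∈ X, ∑ y ∈ X,
      PsiR L (1 + inner ℝ x e) (1 + inner ℝ y e) (1 + inner ℝ x y) := by
    have h1 : 0 ≤ ∑ e ∈ X, ∑ x ∈ X, ∑ y ∈ X,
        GR L (1 + inner ℝ x e) (1 + inner ℝ y e) (1 + inner ℝ x y) :=
      Finset.sum_nonneg (fun e he => GR_pos L X hX e (hX e he))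
    have h2 : 0 ≤ ∑ e ∈ X, ∑ x ∈ X, ∑ y ∈ X,
        GR L (1 + inner ℝ x e) (1 + inner ℝ x y) (1 + inner ℝ y e) := by
      rw [Finset.sum_comm]
      refine Finset.sum_nonneg (fun x hx => ?_)
      refine le_of_le_of_eq (GR_pos L X hX x (hX x hx)) ?_
      apply Finset.sum_congr rfl
      intro e _
      apply Finset.sum_congr rfl
      intro y _
      rw [real_inner_comm x e, real_inner_comm y x, real_inner_comm y e]
    have h3 : 0 ≤ ∑ e ∈ X, ∑ x ∈ X, ∑ y ∈ X,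
        GR L (1 + inner ℝ y e) (1 + inner ℝ x y) (1 + inner ℝ x e) := by
      have h4 : ∑ e ∈ X, ∑ x ∈ X, ∑ y ∈ X,
        GR L (1 + inner ℝ y e) (1 + inner ℝ x y) (1 + inner ℝ x e) =
        ∑ y ∈ X, ∑ e ∈ X, ∑ x ∈ X,
        GR L (1 + inner ℝ e y) (1 + inner ℝ x y) (1 + inner ℝ e x) := by
        rw [Finset.sum_comm' (t' := X) (s' := fun _ => X) (by simp)]
        rw [Finset.sum_comm]
        conv_rhs => rw [Finset.sum_comm]
        apply Finset.sum_congr rfl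
        intro e _
        rw [Finset.sum_comm]
        apply Finset.sum_congr rfl
        intro y _
        apply Finset.sum_congr rfl
        intro x _
        rw [real_inner_comm e y, real_inner_comm e x]
      rw [h4]
      exact Finset.sum_nonneg (fun y hy => GR_pos L X hX y (hX y hy))
    simp only [PsiR, Finset.sum_add_distrib]
    linarith
  have hself : ∀ x ∈ X, inner ℝ x x = (1 : ℝ) := by
    intro x hx; rw [real_inner_self_eq_norm_sq, hX x hx]; norm_num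
  have hle : ∀ x ∈ X, ∀ y ∈ X, -1 ≤ inner ℝ x y := fun x hx y hy =>
    (Tam.abs_inner_le (hX x hx) (hX y hy)).1
  have hpt : ∀ e ∈ X, ∀ x ∈ X, ∀ y ∈ X,
      PsiR L (1 + inner ℝ x e) (1 + inner ℝ y e) (1 + inner ℝ x y) ≤
        β + (α - β) * ((if e = x then 1 else 0) + (if e = y then 1 else 0) +
          (if x = y then 1 else 0)) + (γ - 3 * α + 2 * β) *
          (if e = x then (if x = y then 1 else 0) else 0) := by
    intro e he x hx y hy
    by_cases h1 : e = x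
    · subst h1
      by_cases h2 : e = y
      · subst h2
        rw [hself e he]
        norm_num
        rw [hγ]
        linarith
      · rw [hself e he]
        simp only [if_true, if_neg h2]
        have h3 := hP (inner ℝ e y) (hle e he y hy) (hs e he y hy h2)
        rw [real_inner_comm e y]
        norm_num
        rw [Psi_12, Psi_23]
        linarith
    · by_cases h2 : e = y
      · subst h2
        rw [hself e he]
        simp only [if_true, if_neg h1, if_neg (Ne.symm h1)]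
        have h3 := hP (inner ℝ x e) (hle x hx e he) (hs x hx e he (Ne.symm h1))
        norm_num
        rw [Psi_23]
        linarith
      · by_cases h3 : x = y
        · subst h3
          rw [hself x hx]
          simp only [if_true, if_neg h1]
          have h4 := hP (inner ℝ x e) (hle x hx e he) (hs x hx e he (Ne.symm h1))
          norm_num
          linarith
        · simp only [if_neg h1, if_neg h2, if_neg h3]
          have h4 := hT _ _ _ (hle x hx e he) (hle y hy e he) (hle x hx y hy)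
            (hs x hx e he (Ne.symm h1)) (hs y hy e he (Ne.symm h2)) (hs x hx y hy h3)
            (gram (hX x hx) (hX y hy) (hX e he))
          linarith
  have hfin := Finset.sum_le_sum (fun e he => Finset.sum_le_sum (fun x hx =>
    Finset.sum_le_sum (fun y hy => hpt e he x hx y hy)))
  refine hsum.trans (hfin.trans_eq ?_)
  have c1 : ∑ e ∈ X, ∑ x ∈ X, ∑ y ∈ X, (if e = x then (1 : ℝ) else 0) = (X.card : ℝ) ^ 2 := by
    simp only [Finset.sum_const, nsmul_eq_mul, mul_ite, mul_one, mul_zero]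
    simp only [Finset.sum_ite_eq]
    rw [Finset.sum_congr rfl (fun x hx => if_pos hx), Finset.sum_const, nsmul_eq_mul]
    ring
  have c2 : ∑ e ∈ X, ∑ x ∈ X, ∑ y ∈ X, (if e = y then (1 : ℝ) else 0) = (X.card : ℝ) ^ 2 := by
    simp only [Finset.sum_ite_eq, Finset.sum_const, nsmul_eq_mul]
    rw [Finset.sum_congr rfl (fun x hx => by rw [if_pos hx]), Finset.sum_const, nsmul_eq_mul]
    ring
  have c3 : ∑ e ∈ X, ∑ x ∈ X, ∑ y ∈ X, (if x = y then (1 : ℝ) else 0) = (X.card : ℝ) ^ 2 := by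
    simp only [Finset.sum_ite_eq]
    rw [Finset.sum_congr rfl (fun e _ => Finset.sum_congr rfl (fun x hx => if_pos hx)),
      Finset.sum_const, Finset.sum_const, nsmul_eq_mul, nsmul_eq_mul]
    ring
  have c4 : ∑ e ∈ X, ∑ x ∈ X, ∑ y ∈ X,
      (if e = x then (if x = y then (1 : ℝ) else 0) else 0) = (X.card : ℝ) := by
    have : ∀ e ∈ X, ∑ x ∈ X, ∑ y ∈ X,
      (if e = x then (if x = y then (1 : ℝ) else 0) else 0) = 1 := by
      intro e he
      rw [Finset.sum_eq_single e, Finset.sum_eq_single e]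
      · simp
      · intro y _ hne; simp [Ne.symm hne]
      · intro h; exact absurd he h
      · intro x _ hne; simp [Ne.symm hne]
      · intro h; exact absurd he h
    rw [Finset.sum_congr rfl this, Finset.sum_const, nsmul_eq_mul, mul_one]
  simp only [Finset.sum_add_distrib, ← Finset.mul_sum]
  rw [c1, c2, c3, c4]
  simp only [Finset.sum_const, nsmul_eq_mul]
  ring

end TamC
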