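import Pool.Agent.TamC.Three

/-!
# From the checks to strict inequalities between consecutive Tammes values
-/

namespace TamC

open Finset

lemma HN_cast (L : List (List (List ℤ))) (β : ℤ) (y1 y2 y3 : ℕ) :
    (β : ℝ) - PsiR L y1 y2 y3 = ((HN L β y1 y2 y3).1 : ℝ) - ((HN L β y1 y2 y3).2 : ℝ) := by
  have h := mp_Hf (A := Nat.add) (M := Nat.mul) (c := fun n => n)
    (A' := fun a b : ℝ => a + b) (M' := fun a b : ℝ => a * b) (c' := fun n => (n : ℝ))
    (f := fun n : ℕ => (n : ℝ))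
    (fun _ _ => Nat.cast_add _ _) (fun _ _ => Nat.cast_mul _ _) (fun n => rfl) L β y1 y2 y3
  rw [← df_Hf, ← h]
  rfl

/-- nonexistence of configurations -/
theorem no_conf {L : List (List (List ℤ))} {α β : ℤ} {N Wn Wd : ℕ}
    {K n g T M e0 D K' sh g0 e1 P : ℕ} {t : Tr}
    {K1 m g1 T1 M1 e2 D1 K1' sh1 g2 e3 P1 : ℕ} {t1 : Tr}
    (hN : 0 < N) (hn : 0 < Wn) (hd : 0 < Wd)
    (h3 : root K n n n T M Wn Wd e0 (fun a b c => HN L β a b c) K' sh g0 e1 P = true)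
    (h3p : parOk K' n n n g = true)
    (h3c : chk K' n n n g (dskip Wn (Wd * 2 ^ D)) t P e1 0 (2 ^ D) 0 (2 ^ D) 0 (2 ^ D) = true)
    (h1 : root K1 m 0 0 T1 M1 Wn Wd e2 (fun a _ _ => HN L α a a 2) K1' sh1 g2 e3 P1 = true)
    (h1p : parOk K1' m 0 0 g1 = true)
    (h1c : chk K1' m 0 0 g1 (fun _ _ _ _ _ _ => false) t1 P1 e3
      0 (2 ^ D1) (2 ^ D1) 1 (2 ^ D1) 1 = true)
    {a b : ℕ} (hγ : HN L 0 2 2 2 = (a, b))
    (hfin : β * N ^ 2 + 3 * (α - β) * N + ((b : ℤ) - a - 3 * α + 2 * β) < 0)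
    {s : ℝ} (hs : s < (Wn : ℝ) / Wd - 1) : ¬ Tam.Conf N s := by
  rintro ⟨X, hX, g1', g2⟩
  have hP : ∀ u : ℝ, -1 ≤ u → u ≤ s → PsiR L (1 + u) (1 + u) 2 ≤ α := fun u a1 a2 =>
    pair_bound hn hd h1 h1p h1c (by linarith) (by linarith)
  have hT : ∀ u v t : ℝ, -1 ≤ u → -1 ≤ v → -1 ≤ t → u ≤ s → v ≤ s → t ≤ s →
      0 ≤ dety (1 + u) (1 + v) (1 + t) → PsiR L (1 + u) (1 + v) (1 + t) ≤ β :=
    fun u v t a1 a2 a3 b1 b2 b3 hdt =>
    Psi_sorted (b := (Wn : ℝ) / Wd) (fun y1 y2 y3 c1 c2 c3 c4 c5 =>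
      tri_bound hn hd h3 h3p h3c c1 c2 c3 c4 c5)
      (by linarith) (by linarith) (by linarith) (by linarith) (by linarith) (by linarith) hdt
  have hγ' : PsiR L 2 2 2 = (b : ℝ) - a := by
    have := HN_cast L 0 2 2 2
    rw [hγ] at this
    push_cast at this
    linarith
  have key := three_point g1' g2 hT hP hγ'
  rw [hX] at key
  have hfin' : (β : ℝ) * N ^ 2 + 3 * (α - β) * N + ((b : ℝ) - a - 3 * α + 2 * β) < 0 := by
    exact_mod_cast hfin
  have hN' : (0 : ℝ) < N := by exact_mod_cast hN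
  have : (β : ℝ) * N ^ 3 + 3 * (α - β) * N ^ 2 + ((b : ℝ) - a - 3 * α + 2 * β) * N =
      N * ((β : ℝ) * N ^ 2 + 3 * (α - β) * N + ((b : ℝ) - a - 3 * α + 2 * β)) := by ring
  rw [this] at key
  nlinarith [mul_neg_of_pos_of_neg hN' hfin']

/-! ### configurations -/

/-- an integer vector -/
noncomputable def vec (p : ℤ × ℤ × ℤ) : Tam.V := !₂[(p.1 : ℝ), (p.2.1 : ℝ), (p.2.2 : ℝ)]

def dt (p q : ℤ × ℤ × ℤ) : ℤ := p.1 * q.1 + p.2.1 * q.2.1 + p.2.2 * q.2.2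

/-- the cosine of the angle of `p`, `q` is at most `sn/sd` -/
def okp (sn sd : ℕ) (p q : ℤ × ℤ × ℤ) : Bool :=
  decide (dt p q ≤ 0) || decide (dt p q ^ 2 * (sd : ℤ) ^ 2 ≤ (sn : ℤ) ^ 2 * (dt p p * dt q q))

def okl (sn sd : ℕ) : List (ℤ × ℤ × ℤ) → Bool
  | [] => true
  | p :: l => decide (0 < dt p p) && (l.all (okp sn sd p) && okl sn sd l)

lemma inner_vec (p q : ℤ × ℤ × ℤ) : inner ℝ (vec p) (vec q) = (dt p q : ℝ) := by
  rw [Tam.inner_eq]
  simp [vec, dt]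

lemma okp_spec {sn sd : ℕ} (hsd : 0 < sd) {p q : ℤ × ℤ × ℤ} (hp : 0 < dt p p) (hq : 0 < dt q q)
    (h : okp sn sd p q = true) :
    inner ℝ ((‖vec p‖)⁻¹ • vec p) ((‖vec q‖)⁻¹ • vec q) ≤ (sn : ℝ) / sd := by
  have hp' : (0 : ℝ) < ‖vec p‖ := by
    rw [norm_pos_iff]
    intro h0
    have := inner_vec p p
    rw [h0, inner_zero_left] at this
    have h2 : (0 : ℝ) < dt p p := by exact_mod_cast hp
    linarith
  have hq' : (0 : ℝ) < ‖vec q‖ := by
    rw [norm_pos_iff]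
    intro h0
    have := inner_vec q q
    rw [h0, inner_zero_left] at this
    have h2 : (0 : ℝ) < dt q q := by exact_mod_cast hq
    linarith
  have hsd' : (0 : ℝ) < sd := by exact_mod_cast hsd
  have np : ‖vec p‖ ^ 2 = dt p p := by rw [← real_inner_self_eq_norm_sq, inner_vec]
  have nq : ‖vec q‖ ^ 2 = dt q q := by rw [← real_inner_self_eq_norm_sq, inner_vec]
  rw [real_inner_smul_left, real_inner_smul_right, inner_vec, ← mul_assoc, ← mul_inv,
    inv_mul_eq_div, div_le_div_iff₀ (by positivity) hsd']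
  unfold okp at h
  rw [Bool.or_eq_true, decide_eq_true_eq, decide_eq_true_eq] at h
  rcases h with h | h
  · have h2 : (dt p q : ℝ) ≤ 0 := by exact_mod_cast h
    have h3 : (dt p q : ℝ) * sd ≤ 0 := mul_nonpos_of_nonpos_of_nonneg h2 hsd'.le
    have h4 : 0 ≤ (sn : ℝ) * (‖vec p‖ * ‖vec q‖) := by positivity
    linarith
  · have h2 : (dt p q : ℝ) ^ 2 * (sd : ℝ) ^ 2 ≤ (sn : ℝ) ^ 2 * (dt p p * dt q q) := by
      exact_mod_cast h
    rw [← np, ← nq] at h2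
    apply le_of_sq_le_sq _ (by positivity)
    calc ((dt p q : ℝ) * sd) ^ 2 = (dt p q : ℝ) ^ 2 * (sd : ℝ) ^ 2 := by ring
      _ ≤ _ := h2
      _ = _ := by ring
where
  le_of_sq_le_sq {a b : ℝ} (h : a ^ 2 ≤ b ^ 2) (hb : 0 ≤ b) : a ≤ b := abs_le_of_sq_le_sq' h hb |>.2

lemma okl_conf {sn sd : ℕ} (hsd : 0 < sd) (hlt : sn < sd) : ∀ l : List (ℤ × ℤ × ℤ),
    okl sn sd l = true → ∃ X : Finset Tam.V, X.card = l.length ∧ (∀ x ∈ X, ‖x‖ = 1) ∧
      (∀ x ∈ X, ∀ y ∈ X, x ≠ y → inner ℝ x y ≤ (sn : ℝ) / sd) ∧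
      (∀ x ∈ X, ∃ p ∈ l, 0 < dt p p ∧ x = (‖vec p‖)⁻¹ • vec p) := by
  classical
  intro l
  induction l with
  | nil => intro _; exact ⟨∅, by simp⟩
  | cons p l ih =>
    intro h
    unfold okl at h
    rw [Bool.and_eq_true, Bool.and_eq_true, decide_eq_true_eq, List.all_eq_true] at h
    obtain ⟨hp, hall, hl⟩ := h
    obtain ⟨X, hX, g1, g2, g3⟩ := ih hl
    have hp' : (0 : ℝ) < ‖vec p‖ := by
      rw [norm_pos_iff]
      intro h0
      have := inner_vec p p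
      rw [h0, inner_zero_left] at this
      have h2 : (0 : ℝ) < dt p p := by exact_mod_cast hp
      linarith
    have hn1 : ‖(‖vec p‖)⁻¹ • vec p‖ = 1 := by
      rw [norm_smul, norm_inv, norm_norm, inv_mul_cancel₀ hp'.ne']
    have hsd' : (0 : ℝ) < sd := by exact_mod_cast hsd
    have hs1 : (sn : ℝ) / sd < 1 := by
      rw [div_lt_one hsd']; exact_mod_cast hlt
    have hle : ∀ x ∈ X, inner ℝ ((‖vec p‖)⁻¹ • vec p) x ≤ (sn : ℝ) / sd := by
      intro x hx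
      obtain ⟨q, hq, hq0, rfl⟩ := g3 x hx
      exact okp_spec hsd hp hq0 (hall q hq)
    have hnotin : (‖vec p‖)⁻¹ • vec p ∉ X := by
      intro hmem
      have := hle _ hmem
      rw [real_inner_self_eq_norm_sq, hn1] at this
      linarith
    refine ⟨insert ((‖vec p‖)⁻¹ • vec p) X, ?_, ?_, ?_, ?_⟩
    · rw [Finset.card_insert_of_notMem hnotin, hX]; simp
    · intro x hx
      rcases Finset.mem_insert.mp hx with rfl | hx
      · exact hn1
      · exact g1 x hx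
    · intro x hx y hy hxy
      rcases Finset.mem_insert.mp hx with rfl | hx <;> rcases Finset.mem_insert.mp hy with rfl | hy
      · exact absurd rfl hxy
      · exact hle y hy
      · rw [real_inner_comm]; exact hle x hx
      · exact g2 x hx y hy hxy
    · intro x hx
      rcases Finset.mem_insert.mp hx with rfl | hx
      · exact ⟨p, by simp, hp, rfl⟩
      · obtain ⟨q, hq, hq0, h⟩ := g3 x hx
        exact ⟨q, List.mem_cons_of_mem _ hq, hq0, h⟩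

theorem conf_of_okl {sn sd : ℕ} (hsd : 0 < sd) (hlt : sn < sd) {l : List (ℤ × ℤ × ℤ)}
    (h : okl sn sd l = true) {m : ℕ} (hm : l.length = m) : Tam.Conf m ((sn : ℝ) / sd) := by
  obtain ⟨X, hX, g1, g2, -⟩ := okl_conf hsd hlt l h
  exact ⟨X, by rw [hX, hm], g1, g2⟩

/-- strict inequality from a configuration and a bound -/
theorem a_lt_of {n m : ℕ} (hn : 2 ≤ n) (hm : 2 ≤ m) {s s' : ℝ} (h : ¬ Tam.Conf n s)
    (h' : Tam.Conf m s') (hs : s' ≤ s) : Tam.a n < Tam.a m := by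
  have hn0 : (0 : ℝ) < n := by
    have : 0 < n := by omega
    exact_mod_cast this
  have hc0lt : (1 - 1 / (18 * (n : ℝ))) < 1 := by
    have : 0 < 1 / (18 * (n : ℝ)) := by positivity
    linarith
  obtain ⟨c, -, hconf, hopt⟩ := Tam.exists_opt hn (Tam.conf_sqrt (by omega : 1 ≤ n)) hc0lt
  have hcs : s < c := by
    by_contra hcon
    push Not at hcon
    exact h (hconf.mono hcon)
  exact Tam.a_lt hn hm hconf hopt h' (lt_of_le_of_lt hs hcs)

end TamC
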